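import Mathlib
import Pool.Agent.Y729.AE.Ext

/-!
# The primes at which an algebraic number is near one of finitely many points
-/

set_option autoImplicit false

namespace Pool.Agent.Y729.RV

open NumberField IsDedekindDomain Module

variable {K L : Type} [Field K] [NumberField K] [Field L] [NumberField L] [Algebra K L]

/-- `y` is near one of the points at the prime `w`, which is not above a prime of `S` -/
def Nr {q : ℕ} (S : Finset ℕ) (a : Fin q → K) (y : L) (w : HeightOneSpectrum (𝓞 L)) : Prop :=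
  (∀ p ∈ S, (p : 𝓞 L) ∉ w.asIdeal) ∧ w.valuation L y ≤ 1 ∧
    ∃ j, w.valuation L (y - algebraMap K L (a j)) < 1

theorem val_fin {y : L} (hy : y ≠ 0) :
    {w : HeightOneSpectrum (𝓞 L) | w.valuation L y < 1}.Finite := by
  refine (HeightOneSpectrum.Support.finite (𝓞 L) y⁻¹).subset ?_
  intro w hw
  have hw' : w.valuation L y < 1 := hw
  show 1 < w.valuation L y⁻¹
  rw [map_inv₀]
  have h0 : 0 < w.valuation L y := by
    rw [zero_lt_iff]
    exact (Valuation.ne_zero_iff _).2 hy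
  exact (one_lt_inv₀ h0).2 hw'

theorem nr_fin {q : ℕ} (S : Finset ℕ) {a : Fin q → K} {y : L}
    (hy : ∀ j, y ≠ algebraMap K L (a j)) : {w : HeightOneSpectrum (𝓞 L) | Nr S a y w}.Finite := by
  refine (Set.finite_iUnion fun j => val_fin (sub_ne_zero.2 (hy j))).subset ?_
  rintro w ⟨-, -, j, hj⟩
  exact Set.mem_iUnion.2 ⟨j, hj⟩

open Classical in
/-- the truncated counting function, not normalised -/
noncomputable def cnt {q : ℕ} (S : Finset ℕ) (a : Fin q → K) (y : L) : ℝ :=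
  ∑ᶠ w : HeightOneSpectrum (𝓞 L), if Nr S a y w then Real.log (Ideal.absNorm w.asIdeal : ℝ) else 0

theorem cnt_eq {q : ℕ} (S : Finset ℕ) {a : Fin q → K} {y : L}
    (hy : ∀ j, y ≠ algebraMap K L (a j)) : cnt S a y =
      ∑ w ∈ (nr_fin S hy).toFinset, Real.log (Ideal.absNorm w.asIdeal : ℝ) := by
  classical
  unfold cnt
  rw [finsum_eq_sum_of_support_subset (s := (nr_fin S hy).toFinset)]
  · refine Finset.sum_congr rfl fun w hw => ?_
    have hw' : Nr S a y w := (nr_fin S hy).mem_toFinset.1 hw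
    exact if_pos hw'
  · intro w hw
    rw [Function.mem_support] at hw
    rw [Set.Finite.coe_toFinset]
    by_contra hcon
    have hw' : ¬ Nr S a y w := hcon
    exact hw (if_neg hw')

theorem cnt_nonneg {q : ℕ} (S : Finset ℕ) (a : Fin q → K) (y : L) : 0 ≤ cnt S a y := by
  unfold cnt
  refine finsum_nonneg fun w => ?_
  split_ifs
  · exact Real.log_natCast_nonneg _
  · exact le_rfl

omit [NumberField L] [NumberField K] in
theorem mem_of_dvd' {w : HeightOneSpectrum (𝓞 L)} {m n : ℕ} (h : m ∣ n)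
    (hn : (n : 𝓞 L) ∉ w.asIdeal) : (m : 𝓞 L) ∉ w.asIdeal := by
  intro h1
  obtain ⟨c, rfl⟩ := h
  apply hn
  push_cast
  exact Ideal.mul_mem_right _ _ h1

theorem nat_mem_iff (w : HeightOneSpectrum (𝓞 L)) (m : ℕ) :
    (m : 𝓞 L) ∉ w.asIdeal ↔ Pool.Agent.H691R3.fv w (m : L) = 1 := by
  rw [Pool.Agent.Y729.FW.fv_eq_one_iff]
  have h1 : w.valuation L ((m : 𝓞 L) : L) ≤ 1 := w.valuation_le_one _
  have h2 : w.valuation L ((m : 𝓞 L) : L) < 1 ↔ (m : 𝓞 L) ∈ w.asIdeal :=
    w.valuation_lt_one_iff_mem _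
  have h3 : (((m : 𝓞 L) : L)) = (m : L) := by simp
  rw [h3] at h1 h2
  rw [← h2, not_lt]
  exact ⟨fun h => le_antisymm h1 h, fun h => h.ge⟩

theorem int_le (w : HeightOneSpectrum (𝓞 L)) (z : 𝓞 K) :
    w.valuation L (algebraMap K L (z : K)) ≤ 1 := by
  have h1 := w.valuation_le_one (K := L) (algebraMap (𝓞 K) (𝓞 L) z)
  exact h1

theorem val_one_of_norm {z : 𝓞 K} (w : HeightOneSpectrum (𝓞 L))
    (h : ((Ideal.absNorm (Ideal.span {z}) : ℕ) : 𝓞 L) ∉ w.asIdeal) :
    w.valuation L (algebraMap K L (z : K)) = 1 := by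
  refine le_antisymm (int_le w z) ?_
  rw [← not_lt]
  intro hlt
  have h1 : algebraMap (𝓞 K) (𝓞 L) z ∈ w.asIdeal :=
    (w.valuation_lt_one_iff_mem (K := L) _).1 hlt
  apply h
  have h2 := Ideal.absNorm_mem (Ideal.span {z})
  obtain ⟨t, ht⟩ := Ideal.mem_span_singleton'.1 h2
  have h3 : ((Ideal.absNorm (Ideal.span {z}) : ℕ) : 𝓞 L) =
      algebraMap (𝓞 K) (𝓞 L) t * algebraMap (𝓞 K) (𝓞 L) z := by
    rw [← map_mul, ht, map_natCast]
  rw [h3]
  exact Ideal.mul_mem_left _ _ h1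

/-- a common denominator and the bad primes -/
theorem setup {q : ℕ} (S : Finset ℕ) (hS : ∀ p ∈ S, p.Prime) (a : Fin q → K)
    (ha : Function.Injective a) :
    ∃ (c : 𝓞 K) (β : Fin q → 𝓞 K) (M : ℕ), c ≠ 0 ∧ (∀ j, (β j : K) = (c : K) * a j) ∧ M ≠ 0 ∧
      Function.Injective β ∧
      ∀ (L : Type) [Field L] [NumberField L] [Algebra K L] (w : HeightOneSpectrum (𝓞 L)),
        Pool.Agent.H691R3.fv w (M : L) = 1 → (∀ p ∈ S, (p : 𝓞 L) ∉ w.asIdeal) ∧
          w.valuation L (algebraMap K L (c : K)) = 1 ∧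
          ∀ i j, i ≠ j → w.valuation L (algebraMap K L ((β i - β j : 𝓞 K) : K)) = 1 := by
  classical
  obtain ⟨c, hc⟩ := IsLocalization.exist_integer_multiples_of_finset (nonZeroDivisors (𝓞 K))
    (Finset.univ.image a)
  have h1 : ∀ j, ∃ b : 𝓞 K, (b : K) = (c : 𝓞 K) * a j := by
    intro j
    obtain ⟨b, hb⟩ := hc (a j) (Finset.mem_image_of_mem _ (Finset.mem_univ j))
    refine ⟨b, ?_⟩
    rw [Algebra.smul_def] at hb
    exact hb
  choose β hβ using h1
  have hc0 : (c : 𝓞 K) ≠ 0 := nonZeroDivisors.coe_ne_zero c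
  have hcK : ((c : 𝓞 K) : K) ≠ 0 := fun h => hc0 (RingOfIntegers.coe_eq_zero_iff.1 h)
  have hinj : Function.Injective β := by
    intro i j hij
    apply ha
    have h2 : ((c : 𝓞 K) : K) * a i = (c : 𝓞 K) * a j := by rw [← hβ, ← hβ, hij]
    exact mul_left_cancel₀ hcK h2
  set N : 𝓞 K → ℕ := fun z => Ideal.absNorm (Ideal.span {z}) with hN
  have hN0 : ∀ z, z ≠ 0 → N z ≠ 0 := by
    intro z hz
    rw [hN]
    simp only
    rw [Ne, Ideal.absNorm_eq_zero_iff, Ideal.span_singleton_eq_bot]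
    exact hz
  set M1 : ℕ := ∏ p ∈ S, p with hM1
  set M2 : ℕ := ∏ i, ∏ j, (if i = j then 1 else N (β i - β j)) with hM2
  refine ⟨c, β, M1 * N c * M2, hc0, hβ, ?_, hinj, ?_⟩
  · refine mul_ne_zero (mul_ne_zero ?_ (hN0 _ hc0)) ?_
    · exact Finset.prod_ne_zero_iff.2 fun p hp => (hS p hp).ne_zero
    · refine Finset.prod_ne_zero_iff.2 fun i _ => Finset.prod_ne_zero_iff.2 fun j _ => ?_
      split_ifs with h
      · exact one_ne_zero
      · exact hN0 _ (sub_ne_zero.2 fun h2 => h (hinj h2))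
  · intro L _ _ _ w hw
    rw [← nat_mem_iff] at hw
    refine ⟨fun p hp => mem_of_dvd' ?_ hw, ?_, fun i j hij => ?_⟩
    · exact (Finset.dvd_prod_of_mem (fun p => p) hp).trans (((Dvd.intro _ rfl).trans
        (Dvd.intro _ rfl)))
    · exact val_one_of_norm w (mem_of_dvd' ((Dvd.intro_left _ rfl).trans (Dvd.intro _ rfl)) hw)
    · refine val_one_of_norm w (mem_of_dvd' ?_ hw)
      have h3 : N (β i - β j) = if i = j then 1 else N (β i - β j) := by rw [if_neg hij]
      have h4 : N (β i - β j) ∣ M2 := by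
        rw [h3]
        exact (Finset.dvd_prod_of_mem (fun j => if i = j then 1 else N (β i - β j))
          (Finset.mem_univ j)).trans
          (Finset.dvd_prod_of_mem (fun i => ∏ j, (if i = j then 1 else N (β i - β j)))
          (Finset.mem_univ i))
      exact h4.trans (Dvd.intro_left _ rfl)

end Pool.Agent.Y729.RV
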