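import Mathlib
import Pool.Agent.Y729.RV.Near

/-!
# Change of field
-/

set_option autoImplicit false

namespace Pool.Agent.Y729.RV

open IsDedekindDomain NumberField

attribute [local instance] FractionRing.liftAlgebra FractionRing.isScalarTower_liftAlgebra

section

variable {k L : Type} [Field k] [NumberField k] [Field L] [NumberField L] [Algebra k L]

theorem base_change (V : Finset (HeightOneSpectrum (𝓞 k))) (W : Finset (HeightOneSpectrum (𝓞 L)))
    (hVW : ∀ v ∈ V, ∀ w : HeightOneSpectrum (𝓞 L), w.asIdeal.LiesOver v.asIdeal → w ∈ W) :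
    (Module.finrank k L : ℝ) * (Real.log |(discr k : ℝ)| +
      ∑ v ∈ V, Real.log (Ideal.absNorm v.asIdeal : ℝ)) ≤
      Real.log |(discr L : ℝ)| + ∑ w ∈ W, Real.log (Ideal.absNorm w.asIdeal : ℝ) := by
  classical
  have hmax : ∀ v : HeightOneSpectrum (𝓞 k), v.asIdeal.IsMaximal := fun v => v.isMaximal
  -- the primes above `v`
  let I : HeightOneSpectrum (𝓞 k) → Finset (Ideal (𝓞 L)) := fun v =>
    (v.asIdeal.primesOver (𝓞 L)).toFinset
  have hI : ∀ v Q, Q ∈ I v ↔ Q.IsPrime ∧ Q.LiesOver v.asIdeal := by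
    intro v Q
    show Q ∈ (v.asIdeal.primesOver (𝓞 L)).toFinset ↔ _
    rw [Set.mem_toFinset]
    rfl
  have hbot : ∀ v Q, Q ∈ I v → Q ≠ ⊥ := by
    intro v Q hQ
    obtain ⟨h1, h2⟩ := (hI v Q).1 hQ
    exact Ideal.ne_bot_of_liesOver_of_ne_bot v.ne_bot Q
  have hdisj : ∀ v ∈ V, ∀ v' ∈ V, v ≠ v' → Disjoint (I v) (I v') := by
    intro v _ v' _ hvv
    rw [Finset.disjoint_left]
    intro Q hQ hQ'
    have h1 := ((hI v Q).1 hQ).2.over
    have h2 := ((hI v' Q).1 hQ').2.over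
    exact hvv (HeightOneSpectrum.ext (h1.trans h2.symm))
  set Z := V.biUnion I with hZ
  have hlog0 : ∀ Q : Ideal (𝓞 L), 0 ≤ Real.log (Ideal.absNorm Q) := fun Q =>
    Real.log_natCast_nonneg _
  -- the sum for `L`
  have s1 : ∑ Q ∈ Z, Real.log (Ideal.absNorm Q) ≤
      ∑ w ∈ W, Real.log (Ideal.absNorm w.asIdeal : ℝ) := by
    have hinj : Set.InjOn (fun w : HeightOneSpectrum (𝓞 L) => w.asIdeal) ↑W :=
      fun w _ w' _ h => HeightOneSpectrum.ext h
    rw [← Finset.sum_image (f := fun Q : Ideal (𝓞 L) => Real.log (Ideal.absNorm Q)) hinj]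
    refine Finset.sum_le_sum_of_subset_of_nonneg ?_ fun Q _ _ => hlog0 Q
    intro Q hQ
    rw [hZ, Finset.mem_biUnion] at hQ
    obtain ⟨v, hv, hQ⟩ := hQ
    obtain ⟨h1, h2⟩ := (hI v Q).1 hQ
    rw [Finset.mem_image]
    let w : HeightOneSpectrum (𝓞 L) := ⟨Q, h1, hbot v Q hQ⟩
    exact ⟨w, hVW v hv w h2, rfl⟩
  -- factorisation
  have hmap : ∀ v : HeightOneSpectrum (𝓞 k), Ideal.map (algebraMap (𝓞 k) (𝓞 L)) v.asIdeal =
      ∏ Q ∈ I v, Q ^ Q.ramificationIdx (𝓞 k) := by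
    intro v
    have := hmax v
    exact Ideal.map_algebraMap_eq_finsetProd_pow v.ne_bot
  have hfr : Module.finrank (𝓞 k) (𝓞 L) = Module.finrank k L :=
    (IsFractionRing.finrank_eq (𝓞 k) k (𝓞 L) L).symm
  have s2 : ∀ v : HeightOneSpectrum (𝓞 k),
      (Module.finrank k L : ℝ) * Real.log (Ideal.absNorm v.asIdeal) =
      ∑ Q ∈ I v, (Q.ramificationIdx (𝓞 k) : ℝ) * Real.log (Ideal.absNorm Q) := by
    intro v
    have h1 := Ideal.absNorm_algebraMap (𝓞 k) (𝓞 L) v.asIdeal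
    rw [hmap v, map_prod, hfr] at h1
    have h2 : (∏ Q ∈ I v, ((Ideal.absNorm Q : ℝ)) ^ Q.ramificationIdx (𝓞 k)) =
        (Ideal.absNorm v.asIdeal : ℝ) ^ Module.finrank k L := by
      have h3 := congrArg (fun n : ℕ => (n : ℝ)) h1
      simp only [Nat.cast_prod, Nat.cast_pow, map_pow] at h3
      exact h3
    rw [← Real.log_pow, ← h2, Real.log_prod]
    · refine Finset.sum_congr rfl fun Q _ => ?_
      rw [Real.log_pow]
    · intro Q hQ
      refine pow_ne_zero _ ?_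
      rw [Nat.cast_ne_zero]
      exact Ideal.absNorm_eq_zero_iff.not.2 (hbot v Q hQ)
  have s3 : (Module.finrank k L : ℝ) * ∑ v ∈ V, Real.log (Ideal.absNorm v.asIdeal : ℝ) =
      ∑ Q ∈ Z, (Q.ramificationIdx (𝓞 k) : ℝ) * Real.log (Ideal.absNorm Q) := by
    rw [Finset.mul_sum, hZ, Finset.sum_biUnion hdisj]
    exact Finset.sum_congr rfl fun v _ => s2 v
  -- the different
  have hdvd : (∏ Q ∈ Z, Q ^ (Q.ramificationIdx (𝓞 k) - 1)) ∣ differentIdeal (𝓞 k) (𝓞 L) := by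
    refine Finset.prod_dvd_of_coprime ?_ ?_
    · intro Q hQ Q' hQ' hne
      rw [Finset.mem_coe, hZ, Finset.mem_biUnion] at hQ hQ'
      obtain ⟨v, -, hQ⟩ := hQ
      obtain ⟨v', -, hQ'⟩ := hQ'
      have m1 : Q.IsMaximal := ((hI v Q).1 hQ).1.isMaximal (hbot v Q hQ)
      have m2 : Q'.IsMaximal := ((hI v' Q').1 hQ').1.isMaximal (hbot v' Q' hQ')
      exact (Ideal.isCoprime_of_isMaximal hne).pow
    · intro Q hQ
      rw [hZ, Finset.mem_biUnion] at hQ
      obtain ⟨v, -, hQ⟩ := hQ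
      have := hmax v
      refine pow_sub_one_dvd_differentIdeal (𝓞 k) (p := v.asIdeal) Q _ v.ne_bot ?_
      rw [hmap v]
      exact Finset.dvd_prod_of_mem _ hQ
  have hdiff0 : Ideal.absNorm (differentIdeal (𝓞 k) (𝓞 L)) ≠ 0 := by
    intro h
    have h1 := NumberField.natAbs_discr_eq_absNorm_differentIdeal_mul_natAbs_discr_pow k (𝓞 k) L (𝓞 L)
    rw [h, zero_mul] at h1
    exact NumberField.discr_ne_zero L (Int.natAbs_eq_zero.1 h1)
  have s4 : ∑ Q ∈ Z, ((Q.ramificationIdx (𝓞 k) - 1 : ℕ) : ℝ) * Real.log (Ideal.absNorm Q) ≤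
      Real.log (Ideal.absNorm (differentIdeal (𝓞 k) (𝓞 L))) := by
    have h1 := Ideal.absNorm_dvd_absNorm_of_le (Ideal.dvd_iff_le.1 hdvd)
    have h2 := Nat.le_of_dvd (Nat.pos_of_ne_zero hdiff0) h1
    have h3 : ((Ideal.absNorm (∏ Q ∈ Z, Q ^ (Q.ramificationIdx (𝓞 k) - 1)) : ℕ) : ℝ) ≤
        (Ideal.absNorm (differentIdeal (𝓞 k) (𝓞 L)) : ℝ) := by exact_mod_cast h2
    rw [map_prod] at h3
    simp only [Nat.cast_prod, Nat.cast_pow, map_pow] at h3
    have hne : ∀ Q ∈ Z, (Ideal.absNorm Q : ℝ) ≠ 0 := by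
      intro Q hQ
      rw [hZ, Finset.mem_biUnion] at hQ
      obtain ⟨v, -, hQ⟩ := hQ
      rw [Nat.cast_ne_zero]
      exact Ideal.absNorm_eq_zero_iff.not.2 (hbot v Q hQ)
    have h4 : 0 < ∏ Q ∈ Z, (Ideal.absNorm Q : ℝ) ^ (Q.ramificationIdx (𝓞 k) - 1) :=
      Finset.prod_pos fun Q hQ => pow_pos (lt_of_le_of_ne (Nat.cast_nonneg _) (hne Q hQ).symm) _
    have h5 := Real.log_le_log h4 h3
    rw [Real.log_prod (fun Q hQ => pow_ne_zero _ (hne Q hQ))] at h5
    simp only [Real.log_pow] at h5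
    exact h5
  have s5 : Real.log |(discr L : ℝ)| = Real.log (Ideal.absNorm (differentIdeal (𝓞 k) (𝓞 L))) +
      (Module.finrank k L : ℝ) * Real.log |(discr k : ℝ)| := by
    have h1 := NumberField.natAbs_discr_eq_absNorm_differentIdeal_mul_natAbs_discr_pow k (𝓞 k) L (𝓞 L)
    have h2 : |(discr L : ℝ)| = (Ideal.absNorm (differentIdeal (𝓞 k) (𝓞 L)) : ℝ) *
        |(discr k : ℝ)| ^ Module.finrank k L := by
      have h3 := congrArg (fun n : ℕ => (n : ℝ)) h1
      simp only [Nat.cast_mul, Nat.cast_pow, Nat.cast_natAbs, Int.cast_abs] at h3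
      exact h3
    rw [h2, Real.log_mul, Real.log_pow]
    · exact_mod_cast hdiff0
    · refine pow_ne_zero _ ?_
      rw [abs_ne_zero]
      exact_mod_cast NumberField.discr_ne_zero k
  have s6 : ∑ Q ∈ Z, (Q.ramificationIdx (𝓞 k) : ℝ) * Real.log (Ideal.absNorm Q) ≤
      ∑ Q ∈ Z, (((Q.ramificationIdx (𝓞 k) - 1 : ℕ) : ℝ) * Real.log (Ideal.absNorm Q) +
        Real.log (Ideal.absNorm Q)) := by
    refine Finset.sum_le_sum fun Q _ => ?_
    have h1 : (Q.ramificationIdx (𝓞 k) : ℝ) ≤ ((Q.ramificationIdx (𝓞 k) - 1 : ℕ) : ℝ) + 1 := by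
      exact_mod_cast (by omega :
        Q.ramificationIdx (𝓞 k) ≤ (Q.ramificationIdx (𝓞 k) - 1) + 1)
    have := hlog0 Q
    nlinarith
  rw [Finset.sum_add_distrib] at s6
  rw [mul_add, s3, s5]
  linarith

end

variable {K F L : Type} [Field K] [NumberField K] [Field F] [NumberField F] [Field L]
  [NumberField L] [Algebra K F] [Algebra F L] [Algebra K L] [IsScalarTower K F L]

omit [NumberField K] in
theorem nr_iff {q : ℕ} (S : Finset ℕ) (a : Fin q → K) (y : F)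
    (v : HeightOneSpectrum (𝓞 F)) (w : HeightOneSpectrum (𝓞 L)) [w.asIdeal.LiesOver v.asIdeal] :
    Nr S a (algebraMap F L y) w ↔ Nr S a y v := by
  have he : v.asIdeal.ramificationIdx' w.asIdeal ≠ 0 :=
    Ideal.IsDedekindDomain.ramificationIdx'_ne_zero_of_liesOver w.asIdeal v.ne_bot
  have h1 : ∀ p : ℕ, (p : 𝓞 L) ∈ w.asIdeal ↔ (p : 𝓞 F) ∈ v.asIdeal := by
    intro p
    rw [Ideal.mem_of_liesOver w.asIdeal v.asIdeal, map_natCast]
  have h2 : w.valuation L (algebraMap F L y) ≤ 1 ↔ v.valuation F y ≤ 1 := by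
    rw [← HeightOneSpectrum.valuation_liesOver L v w]
    exact pow_le_one_iff_of_nonneg zero_le he
  have h3 : ∀ j, w.valuation L (algebraMap F L y - algebraMap K L (a j)) < 1 ↔
      v.valuation F (y - algebraMap K F (a j)) < 1 := by
    intro j
    rw [IsScalarTower.algebraMap_apply K F L, ← map_sub, ← HeightOneSpectrum.valuation_liesOver L v w]
    exact pow_lt_one_iff_of_nonneg zero_le he
  unfold Nr
  simp only [h1, h2, h3]

theorem base_cnt {q : ℕ} (S : Finset ℕ) (a : Fin q → K) (y : F)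
    (hy : ∀ j, y ≠ algebraMap K F (a j)) :
    (Module.finrank F L : ℝ) * (cnt S a y + Real.log |(discr F : ℝ)|) ≤
      cnt S a (algebraMap F L y) + Real.log |(discr L : ℝ)| := by
  have hyL : ∀ j, algebraMap F L y ≠ algebraMap K L (a j) := by
    intro j h
    rw [IsScalarTower.algebraMap_apply K F L] at h
    exact hy j ((algebraMap F L).injective h)
  rw [cnt_eq S hy, cnt_eq S hyL]
  have := base_change (k := F) (L := L) (nr_fin S hy).toFinset (nr_fin S hyL).toFinset (by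
    intro v hv w hw
    rw [Set.Finite.mem_toFinset] at hv ⊢
    exact (nr_iff S a y v w).2 hv)
  linarith

end Pool.Agent.Y729.RV
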