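import Mathlib

/-!
# Subsets of given size with small sum
-/

set_option autoImplicit false

namespace Pool.Agent.Y729.RV

theorem small_aux {ι : Type*} [DecidableEq ι] (D : Finset ι) (f : ι → ℝ) (k : ℕ) :
    ∀ m : ℕ, 1 ≤ m → m + k = D.card →
      ∃ J ⊆ D, J.card = m ∧ (D.card : ℝ) * ∑ i ∈ J, f i ≤ m * ∑ i ∈ D, f i := by
  induction k with
  | zero =>
    intro m _ hmD
    exact ⟨D, subset_rfl, by omega, by rw [← hmD]; simp⟩
  | succ k ih =>
    intro m hm hmD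
    obtain ⟨J, hJ, hJc, hJs⟩ := ih (m + 1) (by omega) (by omega)
    have hne : J.Nonempty := Finset.card_pos.1 (by omega)
    obtain ⟨i, hi, hmax⟩ := Finset.exists_max_image J f hne
    refine ⟨J.erase i, (Finset.erase_subset _ _).trans hJ, by
      rw [Finset.card_erase_of_mem hi, hJc]; omega, ?_⟩
    have h1 : ∑ x ∈ J, f x ≤ ((m : ℝ) + 1) * f i := by
      calc ∑ x ∈ J, f x ≤ ∑ _x ∈ J, f i := Finset.sum_le_sum fun x hx => hmax x hx
        _ = ((m : ℝ) + 1) * f i := by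
          rw [Finset.sum_const, hJc, nsmul_eq_mul]
          push_cast
          ring
    have h2 : ∑ x ∈ J.erase i, f x = ∑ x ∈ J, f x - f i := by
      rw [← Finset.add_sum_erase J f hi]
      ring
    rw [h2]
    push_cast at hJs
    have hc : (0 : ℝ) ≤ D.card := Nat.cast_nonneg _
    have hm0 : (0 : ℝ) < (m : ℝ) + 1 := by positivity
    have h3 : ((m : ℝ) + 1) * (∑ x ∈ J, f x - f i) ≤ m * ∑ x ∈ J, f x := by linarith
    have h4 : (D.card : ℝ) * (((m : ℝ) + 1) * (∑ x ∈ J, f x - f i)) ≤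
        (D.card : ℝ) * (m * ∑ x ∈ J, f x) := mul_le_mul_of_nonneg_left h3 hc
    have h5 : (m : ℝ) * ((D.card : ℝ) * ∑ x ∈ J, f x) ≤ m * (((m : ℝ) + 1) * ∑ x ∈ D, f x) :=
      mul_le_mul_of_nonneg_left hJs (Nat.cast_nonneg _)
    have h6 : ((m : ℝ) + 1) * ((D.card : ℝ) * (∑ x ∈ J, f x - f i)) ≤
        ((m : ℝ) + 1) * (m * ∑ x ∈ D, f x) := by linarith
    exact le_of_mul_le_mul_left h6 hm0

/-- a subset of given size with small sum -/
theorem small_subset {ι : Type*} [DecidableEq ι] (D : Finset ι) (f : ι → ℝ) (m : ℕ)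
    (hm : 1 ≤ m) (hmD : m ≤ D.card) :
    ∃ J ⊆ D, J.card = m ∧ (D.card : ℝ) * ∑ i ∈ J, f i ≤ m * ∑ i ∈ D, f i :=
  small_aux D f (D.card - m) m hm (by omega)

end Pool.Agent.Y729.RV
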