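import Mathlib
import Pool.Agent.H645R3.VK1
import Pool.Agent.Y729.TU.Supp

/-!
# Tuples of ideals with small radicals
-/

set_option autoImplicit false

namespace Pool.Agent.Y729.RV

open NumberField IsDedekindDomain H645.VK
open Pool.Agent.Y729.TU (supp_card)

variable {K : Type} [Field K] [NumberField K]

theorem pd_fin {I : Ideal (𝓞 K)} (hI : I ≠ ⊥) :
    {v : HeightOneSpectrum (𝓞 K) | v.asIdeal ∣ I}.Finite := Ideal.finite_factors hI

open Classical in
/-- the prime divisors of an ideal -/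
noncomputable def pd (I : Ideal (𝓞 K)) : Finset (HeightOneSpectrum (𝓞 K)) :=
  if h : I ≠ ⊥ then (pd_fin h).toFinset else ∅

theorem mem_pd {I : Ideal (𝓞 K)} (hI : I ≠ ⊥) (v : HeightOneSpectrum (𝓞 K)) :
    v ∈ pd I ↔ v.asIdeal ∣ I := by
  unfold pd
  rw [dif_pos hI, Set.Finite.mem_toFinset]
  rfl

/-- the exponents of an ideal -/
noncomputable def ex (I : Ideal (𝓞 K)) : Pool.Agent.W223.AK.Idl K :=
  open Classical in
  Finsupp.onFinset (pd I)
    (fun v => if v ∈ pd I then (Associates.mk v.asIdeal).count (Associates.mk I).factors else 0)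
    (by
      intro v hv
      by_contra hn
      rw [if_neg hn] at hv
      exact hv rfl)

theorem ex_apply {I : Ideal (𝓞 K)} (hI : I ≠ ⊥) (v : HeightOneSpectrum (𝓞 K)) :
    ex I v = (Associates.mk v.asIdeal).count (Associates.mk I).factors := by
  classical
  unfold ex
  rw [Finsupp.onFinset_apply]
  split_ifs with h
  · rfl
  · rw [mem_pd hI] at h
    by_contra h1
    exact h ((Associates.count_ne_zero_iff_dvd hI v.irreducible).1 (fun h2 => h1 h2.symm))

theorem ex_support (I : Ideal (𝓞 K)) : (ex I).support ⊆ pd I := by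
  unfold ex
  exact Finsupp.support_onFinset_subset

theorem prod_ex {I : Ideal (𝓞 K)} (hI : I ≠ ⊥) : ∏ v ∈ pd I, v.asIdeal ^ ex I v = I := by
  have h := Ideal.finprod_heightOneSpectrum_factorization hI
  rw [finprod_eq_prod_of_mulSupport_subset (s := pd I)] at h
  · refine Eq.trans ?_ h
    refine Finset.prod_congr rfl fun v _ => ?_
    rw [ex_apply hI]
    rfl
  · intro v hv
    rw [Finset.mem_coe, mem_pd hI]
    by_contra hn
    apply hv
    unfold HeightOneSpectrum.maxPowDividing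
    have h0 : (Associates.mk v.asIdeal).count (Associates.mk I).factors = 0 := by
      by_contra h1
      exact hn ((Associates.count_ne_zero_iff_dvd hI v.irreducible).1 h1)
    simp only [h0, pow_zero]

theorem len_ex {I : Ideal (𝓞 K)} (hI : I ≠ ⊥) :
    Pool.Agent.W223.AK.len (ex I) = Real.log (Ideal.absNorm I : ℝ) := by
  conv_rhs => rw [← prod_ex hI]
  rw [map_prod]
  push_cast
  rw [Real.log_prod]
  · unfold Pool.Agent.W223.AK.len
    rw [Finset.sum_subset (ex_support I)]
    · refine Finset.sum_congr rfl fun v _ => ?_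
      rw [map_pow]
      push_cast
      rw [Real.log_pow]
      rfl
    · intro v _ hv
      rw [Finsupp.notMem_support_iff] at hv
      rw [hv]
      simp
  · intro v _
    rw [map_pow]
    push_cast
    refine pow_ne_zero _ ?_
    rw [Nat.cast_ne_zero, Ne, Ideal.absNorm_eq_zero_iff]
    exact v.ne_bot

/-- ideals with given prime divisors -/
theorem ideals_card (n : ℕ) {ε : ℝ} (hε : 0 < ε) : ∃ D : ℝ, 0 < D ∧
    ∀ (K : Type) [Field K] [NumberField K], Module.finrank ℚ K = n →
      ∀ (T : Finset (HeightOneSpectrum (𝓞 K))) (X : ℝ) (Q : Finset (Ideal (𝓞 K))),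
        (∀ I ∈ Q, I ≠ ⊥ ∧ pd I ⊆ T ∧ Real.log (Ideal.absNorm I : ℝ) ≤ X) →
        (Q.card : ℝ) ≤
          D * Real.exp (ε * (X + ∑ v ∈ T, Real.log (Ideal.absNorm v.asIdeal : ℝ))) := by
  classical
  obtain ⟨D, hD, h⟩ := supp_card n hε
  refine ⟨D, hD, ?_⟩
  intro K _ _ hK T X Q hQ
  have hinj : Set.InjOn (ex (K := K)) (Q : Set (Ideal (𝓞 K))) := by
    intro I hI I' hI' he
    have h1 := (hQ I hI).1
    have h1' := (hQ I' hI').1
    have e1 := Ideal.finprod_heightOneSpectrum_factorization h1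
    have e2 := Ideal.finprod_heightOneSpectrum_factorization h1'
    rw [← e1, ← e2]
    refine finprod_congr fun v => ?_
    unfold HeightOneSpectrum.maxPowDividing
    rw [← ex_apply h1, ← ex_apply h1', he]
  rw [← Finset.card_image_of_injOn hinj]
  refine h K hK T X _ ?_
  intro a ha
  obtain ⟨I, hI, rfl⟩ := Finset.mem_image.1 ha
  obtain ⟨h1, h2, h3⟩ := hQ I hI
  exact ⟨(ex_support I).trans h2, by rw [len_ex h1]; exact h3⟩

theorem prod_pd_ne (T : Finset (HeightOneSpectrum (𝓞 K))) : ∏ v ∈ T, v.asIdeal ≠ ⊥ := by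
  rw [Ne, ← Ideal.zero_eq_bot, Finset.prod_eq_zero_iff]
  rintro ⟨v, _, hv⟩
  exact v.ne_bot hv

theorem pd_prod (T : Finset (HeightOneSpectrum (𝓞 K))) : pd (∏ v ∈ T, v.asIdeal) = T := by
  ext v
  rw [mem_pd (prod_pd_ne T), v.prime.dvd_finsetProd_iff]
  constructor
  · rintro ⟨w, hw, hvw⟩
    have h3 := (v.prime.dvd_prime_iff_associated w.prime).1 hvw
    rw [associated_iff_eq] at h3
    rw [HeightOneSpectrum.ext h3]
    exact hw
  · intro hv
    exact ⟨v, hv, dvd_rfl⟩

theorem log_prod_pd (T : Finset (HeightOneSpectrum (𝓞 K))) :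
    Real.log (Ideal.absNorm (∏ v ∈ T, v.asIdeal) : ℝ) =
      ∑ v ∈ T, Real.log (Ideal.absNorm v.asIdeal : ℝ) := by
  rw [map_prod]
  push_cast
  rw [Real.log_prod]
  intro v _
  rw [Nat.cast_ne_zero, Ne, Ideal.absNorm_eq_zero_iff]
  exact v.ne_bot

/-- the sum of `log N(v)` over the prime divisors -/
noncomputable def rl (I : Ideal (𝓞 K)) : ℝ := ∑ v ∈ pd I, Real.log (Ideal.absNorm v.asIdeal : ℝ)

theorem rl_nonneg (I : Ideal (𝓞 K)) : 0 ≤ rl I :=
  Finset.sum_nonneg fun v _ => Real.log_natCast_nonneg _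

/-- tuples of ideals with small radicals -/
theorem tuples_card (K : Type) [Field K] [NumberField K] (ι : Type) [Fintype ι] [DecidableEq ι]
    {ε : ℝ} (hε : 0 < ε) :
    ∃ C : ℝ, 0 < C ∧ ∀ X Y : ℝ, 0 ≤ X → 0 ≤ Y → ∀ E : Finset (ι → Ideal (𝓞 K)),
      (∀ m ∈ E, (∀ i, m i ≠ ⊥ ∧ Real.log (Ideal.absNorm (m i) : ℝ) ≤ X) ∧ ∑ i, rl (m i) ≤ Y) →
      (E.card : ℝ) ≤ C * Real.exp (Y + ε * (X + Y)) := by
  classical
  set N : ℝ := (Fintype.card ι : ℝ) with hN
  have hN0 : 0 ≤ N := Nat.cast_nonneg _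
  set η : ℝ := ε / (N + 1) with hη
  have hη0 : 0 < η := by positivity
  obtain ⟨C1, hC1, h1⟩ := prI_card K ι η hη0
  obtain ⟨C2, hC2, h2⟩ := ideals_card (Module.finrank ℚ K) hη0
  refine ⟨C1 * C2 ^ (Fintype.card ι), by positivity, ?_⟩
  intro X Y hX hY E hE
  set f : (ι → Ideal (𝓞 K)) → (ι → Ideal (𝓞 K)) := fun m i => ∏ v ∈ pd (m i), v.asIdeal with hf
  have himg : E.image f ⊆ prI K ι (Real.exp Y) := by
    intro R hR
    obtain ⟨m, hm, rfl⟩ := Finset.mem_image.1 hR
    refine mem_prI K ι _ _ (fun i => prod_pd_ne _) ?_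
    rw [← Real.log_le_iff_le_exp, Real.log_prod]
    · refine le_trans (le_of_eq ?_) (hE m hm).2
      refine Finset.sum_congr rfl fun i _ => ?_
      exact log_prod_pd _
    · intro i _
      rw [Nat.cast_ne_zero, Ne, Ideal.absNorm_eq_zero_iff]
      exact prod_pd_ne _
    · refine Finset.prod_pos fun i _ => ?_
      have := absNorm_pos_real K _ (prod_pd_ne (pd (m i)))
      exact lt_of_lt_of_le one_pos this
  have hA : ((E.image f).card : ℝ) ≤ C1 * Real.exp ((1 + η) * Y) := by
    refine (Nat.cast_le.2 (Finset.card_le_card himg)).trans ((h1 _ (Real.exp_pos Y)).trans ?_)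
    rw [← Real.exp_mul, mul_comm Y]
  have hB : ∀ R ∈ E.image f, ((E.filter fun m => f m = R).card : ℝ) ≤
      (C2 * Real.exp (η * (X + Y))) ^ (Fintype.card ι) := by
    intro R hR
    obtain ⟨m0, hm0, rfl⟩ := Finset.mem_image.1 hR
    set G : ι → Finset (Ideal (𝓞 K)) := fun i =>
      (idF K (Real.exp X)).filter fun I => pd I ⊆ pd (m0 i) with hG
    have hsub : (E.filter fun m => f m = f m0) ⊆ Fintype.piFinset G := by
      intro m hm
      obtain ⟨hmE, hfm⟩ := Finset.mem_filter.1 hm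
      rw [Fintype.mem_piFinset]
      intro i
      rw [hG, Finset.mem_filter, mem_idF]
      obtain ⟨h3, h4⟩ := (hE m hmE).1 i
      have hpos : (0 : ℝ) < Ideal.absNorm (m i) :=
        lt_of_lt_of_le one_pos (absNorm_pos_real K _ h3)
      refine ⟨⟨h3, (Real.log_le_iff_le_exp hpos).1 h4⟩, ?_⟩
      have h5 := congrFun hfm i
      simp only [hf] at h5
      have h6 := congrArg pd h5
      rw [pd_prod, pd_prod] at h6
      rw [h6]
    have hcard : ∀ i, ((G i).card : ℝ) ≤ C2 * Real.exp (η * (X + Y)) := by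
      intro i
      refine (h2 K rfl (pd (m0 i)) X (G i) ?_).trans ?_
      · intro I hI
        rw [hG, Finset.mem_filter, mem_idF] at hI
        have hpos : (0 : ℝ) < Ideal.absNorm I :=
          lt_of_lt_of_le one_pos (absNorm_pos_real K _ hI.1.1)
        exact ⟨hI.1.1, hI.2, (Real.log_le_iff_le_exp hpos).2 hI.1.2⟩
      · have h7 : rl (m0 i) ≤ Y :=
          (Finset.single_le_sum (f := fun i => rl (m0 i)) (fun j _ => rl_nonneg _)
            (Finset.mem_univ i)).trans (hE m0 hm0).2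
        have : ∑ v ∈ pd (m0 i), Real.log (Ideal.absNorm v.asIdeal : ℝ) = rl (m0 i) := rfl
        rw [this]
        gcongr
    calc ((E.filter fun m => f m = f m0).card : ℝ) ≤ ((Fintype.piFinset G).card : ℝ) := by
          exact_mod_cast Finset.card_le_card hsub
      _ = ∏ i, ((G i).card : ℝ) := by rw [Fintype.card_piFinset]; push_cast; rfl
      _ ≤ ∏ _i : ι, C2 * Real.exp (η * (X + Y)) :=
          Finset.prod_le_prod (fun i _ => Nat.cast_nonneg _) fun i _ => hcard i
      _ = _ := by rw [Finset.prod_const, Finset.card_univ]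
  have hsum : (E.card : ℝ) = ∑ R ∈ E.image f, ((E.filter fun m => f m = R).card : ℝ) := by
    rw [Finset.card_eq_sum_card_image f E]
    push_cast
    rfl
  calc (E.card : ℝ) = ∑ R ∈ E.image f, ((E.filter fun m => f m = R).card : ℝ) := hsum
    _ ≤ ∑ _R ∈ E.image f, (C2 * Real.exp (η * (X + Y))) ^ (Fintype.card ι) :=
        Finset.sum_le_sum hB
    _ = ((E.image f).card : ℝ) * (C2 * Real.exp (η * (X + Y))) ^ (Fintype.card ι) := by
        rw [Finset.sum_const, nsmul_eq_mul]
    _ ≤ C1 * Real.exp ((1 + η) * Y) * (C2 * Real.exp (η * (X + Y))) ^ (Fintype.card ι) :=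
        mul_le_mul_of_nonneg_right hA (by positivity)
    _ = C1 * C2 ^ (Fintype.card ι) *
          (Real.exp ((1 + η) * Y) * Real.exp (N * (η * (X + Y)))) := by
        rw [mul_pow, ← Real.exp_nat_mul]
        ring
    _ ≤ C1 * C2 ^ (Fintype.card ι) * Real.exp (Y + ε * (X + Y)) := by
        refine mul_le_mul_of_nonneg_left ?_ (by positivity)
        rw [← Real.exp_add]
        refine Real.exp_le_exp.2 ?_
        have e1 : η * (N + 1) = ε := by
          rw [hη]
          field_simp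
        have e2 : ε * (X + Y) = η * (X + Y) + N * (η * (X + Y)) := by rw [← e1]; ring
        rw [e2]
        have : 0 ≤ η * X := by positivity
        nlinarith

end Pool.Agent.Y729.RV
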