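import Mathlib
import Pool.Agent.H645R3.VK5
import Pool.Agent.Y729.RV.Tup

/-!
# The ideals of the values of the minimal polynomial
-/

set_option autoImplicit false

namespace Pool.Agent.Y729.RV

open Finset NumberField IsDedekindDomain Height H645.VB H645.VK

variable {k L : Type} [Field k] [NumberField k] [Field L] [NumberField L] [Algebra k L]

/-- the prime below a place -/
theorem exists_lies (w : FinitePlace L) : ∃ p : HeightOneSpectrum (𝓞 k), lies p w := by
  refine ⟨⟨w.maximalIdeal.asIdeal.comap (algebraMap (𝓞 k) (𝓞 L)), Ideal.IsPrime.comap _, ?_⟩, ?_⟩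
  · intro h
    exact w.maximalIdeal.ne_bot (Ideal.eq_bot_of_comap_eq_bot h)
  · rw [lies_iff, Ideal.dvd_iff_le]
    exact Ideal.map_comap_le

/-- the primes which divide the relative norm -/
theorem relNorm_primes {C : Ideal (𝓞 L)} (hC : C ≠ ⊥) (v : HeightOneSpectrum (𝓞 k))
    (hv : v.asIdeal ∣ Ideal.relNorm (𝓞 k) C) :
    ∃ w : FinitePlace L, lies v w ∧ w.maximalIdeal.asIdeal ∣ C := by
  classical
  have h := Ideal.finprod_heightOneSpectrum_factorization hC
  have hfs : (Function.mulSupport fun P : HeightOneSpectrum (𝓞 L) =>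
      P.maxPowDividing C).Finite := Ideal.hasFiniteMulSupport hC
  rw [finprod_eq_prod_of_mulSupport_subset (s := hfs.toFinset) _ (by simp)] at h
  rw [← h, map_prod] at hv
  obtain ⟨P, -, hP⟩ := (v.prime.dvd_finsetProd_iff _).1 hv
  unfold HeightOneSpectrum.maxPowDividing at hP
  rw [map_pow] at hP
  have h1 := v.prime.dvd_of_dvd_pow hP
  have h2 : (Associates.mk P.asIdeal).count (Associates.mk C).factors ≠ 0 := by
    intro h0
    rw [h0, pow_zero] at hP
    exact v.prime.not_unit (isUnit_of_dvd_one hP)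
  have h3 := (Associates.count_ne_zero_iff_dvd hC P.irreducible).1 h2
  set w : FinitePlace L := FinitePlace.mk P with hw
  have hwP : w.maximalIdeal = P := by
    rw [hw]
    exact FinitePlace.maximalIdeal_mk P
  refine ⟨w, ?_, by rw [hwP]; exact h3⟩
  obtain ⟨p, hp⟩ := exists_lies (k := k) w
  have h4 := relNorm_dvd p w hp
  rw [hwP] at h4
  have h5 := v.prime.dvd_of_dvd_pow (h1.trans h4)
  have h6 := (v.prime.dvd_prime_iff_associated p.prime).1 h5
  rw [associated_iff_eq] at h6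
  have : v = p := HeightOneSpectrum.ext h6
  rw [this]
  exact hp

/-- arithmetic data of all values, with the primes -/
theorem data_r (pb : PowerBasis k L) (A : ℝ) (hA : 1 ≤ A) :
    ∃ (l : k) (n : Ideal (𝓞 k)) (z : 𝓞 k × 𝓞 k → 𝓞 k) (m : 𝓞 k × 𝓞 k → Ideal (𝓞 k)),
      l ≠ 0 ∧ n ≠ ⊥ ∧ ∀ a : 𝓞 k × 𝓞 k, ck a pb.gen ≠ 0 →
        z a ≠ 0 ∧ ((z a : 𝓞 k) : k) = l * homk (minpoly k pb.gen) (Module.finrank k L) a ∧
        Ideal.span {z a} = n * m a ∧ m a ≠ ⊥ ∧
        ((∀ v : InfinitePlace k, v (a.1 : k) ≤ A ∧ v (a.2 : k) ≤ A) →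
          (Ideal.absNorm (m a) : ℝ) ≤ (2 * A) ^ Module.finrank ℚ L * mulHeight₁ pb.gen) ∧
        ∀ v : HeightOneSpectrum (𝓞 k), v.asIdeal ∣ m a →
          ∃ w : FinitePlace L, lies v w ∧ w (ck a pb.gen) < max (w pb.gen) 1 := by
  classical
  haveI : Module.Finite k L := Module.Finite.of_restrictScalars_finite ℚ k L
  set y := pb.gen with hy
  obtain ⟨β, J, hβ, hJ, hloc⟩ := local_data_k (k := k) y
  have hβL : (β : L) ≠ 0 := by
    intro h
    exact hβ (RingOfIntegers.coe_eq_zero_iff.1 h)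
  have hex : ∀ a : 𝓞 k × 𝓞 k, ∃ (z : 𝓞 k) (m : Ideal (𝓞 k)), ck a y ≠ 0 →
        z ≠ 0 ∧ ((z : 𝓞 k) : k) = Algebra.norm k (β : L) *
          homk (minpoly k y) (Module.finrank k L) a ∧
        Ideal.span {z} = Ideal.relNorm (𝓞 k) J * m ∧ m ≠ ⊥ ∧
        ((∀ v : InfinitePlace k, v (a.1 : k) ≤ A ∧ v (a.2 : k) ≤ A) →
          (Ideal.absNorm m : ℝ) ≤ (2 * A) ^ Module.finrank ℚ L * mulHeight₁ y) ∧
        ∀ v : HeightOneSpectrum (𝓞 k), v.asIdeal ∣ m →
          ∃ w : FinitePlace L, lies v w ∧ w (ck a y) < max (w y) 1 := by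
    intro a
    by_cases h : ck a y = 0
    · exact ⟨0, ⊥, fun h' => absurd h h'⟩
    · obtain ⟨γ, C, hγ0, hγ, hC, hspan, hw⟩ := hloc a h
      have hz : ((Algebra.intNorm (𝓞 k) (𝓞 L) γ : 𝓞 k) : k) = Algebra.norm k (γ : L) :=
        Algebra.algebraMap_intNorm (A := 𝓞 k) (K := k) (L := L) (B := 𝓞 L) γ
      have hprodN : (∏ᶠ w : FinitePlace L, max (w y) 1 / w (ck a y)) =
          (Ideal.absNorm (Ideal.relNorm (𝓞 k) C) : ℝ) := by
        rw [Ideal.absNorm_relNorm, ← finprod_q C hC]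
        exact finprod_congr fun w => hw w
      refine ⟨Algebra.intNorm (𝓞 k) (𝓞 L) γ, Ideal.relNorm (𝓞 k) C, fun _ =>
        ⟨?_, ?_, ?_, ?_, ?_, ?_⟩⟩
      · intro h0
        have h1 : Algebra.norm k (γ : L) = 0 := by
          rw [← hz, h0]
          exact RingOfIntegers.coe_eq_zero_iff.2 rfl
        rw [Algebra.norm_eq_zero_iff] at h1
        exact hγ0 (RingOfIntegers.coe_eq_zero_iff.1 h1)
      · rw [hz, hγ, map_mul, norm_homk pb a, mul_comm]
      · rw [← Ideal.relNorm_singleton, hspan, map_mul]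
      · rwa [Ne, Ideal.relNorm_eq_bot_iff]
      · intro hAa
        rw [← hprodN]
        exact val_le_k y a h A hA hAa
      · intro v hv
        obtain ⟨w, hw1, hw2⟩ := relNorm_primes hC v hv
        refine ⟨w, hw1, ?_⟩
        have h1 := hw w
        have h2 : 1 ≤ multiplicity w.maximalIdeal.asIdeal C := by
          rw [le_mult_iff w _ hC, pow_one, ← Ideal.dvd_iff_le]
          exact hw2
        have h3 := two_le_qq w
        have h4 : (2 : ℝ) ≤ (qq w : ℝ) ^ multiplicity w.maximalIdeal.asIdeal C := by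
          have h5 : (2 : ℝ) ≤ (qq w : ℝ) := by exact_mod_cast h3
          exact h5.trans (le_self_pow₀ (by linarith) (by omega))
        have h6 : 0 < w (ck a y) := FinitePlace.pos_iff.2 h
        rw [← h1, le_div_iff₀ h6] at h4
        linarith
  choose z m hzsm using hex
  refine ⟨Algebra.norm k (β : L), Ideal.relNorm (𝓞 k) J, z, m, ?_, ?_, hzsm⟩
  · exact Algebra.norm_ne_zero_iff.2 hβL
  · rwa [Ne, Ideal.relNorm_eq_bot_iff]

end Pool.Agent.Y729.RV
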