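import Mathlib
import Pool.Agent.Y729.RV.Near
import Pool.Agent.Y729.RV.Rad

/-!
# The radicals of the value ideals and the truncated counting function
-/

set_option autoImplicit false

namespace Pool.Agent.Y729.RV

open NumberField IsDedekindDomain H645.VB H645.VK
open Pool.Agent.H691R3 (fv)

section

variable {L : Type} [Field L] [NumberField L]

theorem fv_eq (v : HeightOneSpectrum (𝓞 L)) (x : L) : fv v x =
    ((WithZeroMulInt.toNNReal (NumberField.HeightOneSpectrum.absNorm_ne_zero v)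
      (v.valuation L x) : NNReal) : ℝ) := NumberField.FinitePlace.norm_embedding' (v := v) (x := x)

theorem fv_lt_iff (v : HeightOneSpectrum (𝓞 L)) (x z : L) :
    fv v x < fv v z ↔ v.valuation L x < v.valuation L z := by
  have hN : 1 < Ideal.absNorm v.asIdeal := NumberField.HeightOneSpectrum.one_lt_absNorm v
  rw [fv_eq, fv_eq, NNReal.coe_lt_coe]
  exact (WithZeroMulInt.toNNReal_strictMono (by exact_mod_cast hN)).lt_iff_lt

theorem fv_lt_one_iff (v : HeightOneSpectrum (𝓞 L)) (x : L) :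
    fv v x < 1 ↔ v.valuation L x < 1 := by
  have h := fv_lt_iff v x 1
  rw [map_one, map_one] at h
  exact h

theorem fv_le_one_iff (v : HeightOneSpectrum (𝓞 L)) (x : L) :
    fv v x ≤ 1 ↔ v.valuation L x ≤ 1 := by
  have h := fv_lt_iff v 1 x
  rw [map_one, map_one] at h
  rw [← not_lt, ← not_lt, h]

theorem place_fv (w : FinitePlace L) (x : L) : w x = fv w.maximalIdeal x := by
  conv_lhs => rw [← FinitePlace.mk_maximalIdeal w]
  rfl

end

variable {K L : Type} [Field K] [NumberField K] [Field L] [NumberField L] [Algebra K L]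

/-- meeting a point at a good place -/
theorem near_of (w : HeightOneSpectrum (𝓞 L)) (β c : 𝓞 K) (a : K) (hβ : (β : K) = (c : K) * a)
    (hc : w.valuation L (algebraMap K L (c : K)) = 1) (y : L)
    (h : fv w (ck (β, c) y) < max (fv w y) 1) :
    w.valuation L y ≤ 1 ∧ w.valuation L (ck (β, c) y) < 1 ∧
      w.valuation L (y - algebraMap K L a) < 1 := by
  have hc1 : fv w (algebraMap K L (c : K)) = 1 :=
    (Pool.Agent.Y729.FW.fv_eq_one_iff w _).2 hc
  have hb1 : fv w (algebraMap K L (β : K)) ≤ 1 := (fv_le_one_iff w _).2 (int_le w β)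
  have hck : ck (β, c) y = algebraMap K L (β : K) - algebraMap K L (c : K) * y := rfl
  have hy : fv w y ≤ 1 := by
    by_contra hcon
    rw [not_le] at hcon
    rw [max_eq_left hcon.le] at h
    have h1 : fv w (algebraMap K L (c : K) * y) = fv w y := by rw [map_mul, hc1, one_mul]
    have h2 : algebraMap K L (c : K) * y = algebraMap K L (β : K) + -ck (β, c) y := by
      rw [hck]; ring
    have h3 := Pool.Agent.H691R3.fv_na w (algebraMap K L (β : K)) (-ck (β, c) y)
    rw [← h2, h1, AbsoluteValue.map_neg] at h3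
    rcases le_max_iff.1 h3 with h4 | h4 <;> linarith
  rw [max_eq_right hy] at h
  refine ⟨(fv_le_one_iff w _).1 hy, (fv_lt_one_iff w _).1 h, ?_⟩
  rw [← fv_lt_one_iff]
  have h5 : ck (β, c) y = -(algebraMap K L (c : K) * (y - algebraMap K L a)) := by
    rw [hck, hβ, map_mul]
    ring
  rw [h5, AbsoluteValue.map_neg, map_mul, hc1, one_mul] at h
  exact h

/-- **The radicals.** -/
theorem rad_sum {q : ℕ} (S : Finset ℕ) (a : Fin q → K) (c : 𝓞 K) (β : Fin q → 𝓞 K) (M : ℕ)
    (hβ : ∀ j, (β j : K) = (c : K) * a j) (hM : M ≠ 0)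
    (hgood : ∀ w : HeightOneSpectrum (𝓞 L),
        fv w (M : L) = 1 → (∀ p ∈ S, (p : 𝓞 L) ∉ w.asIdeal) ∧
          w.valuation L (algebraMap K L (c : K)) = 1 ∧
          ∀ i j, i ≠ j → w.valuation L (algebraMap K L ((β i - β j : 𝓞 K) : K)) = 1)
    (y : L) (hy : ∀ j, y ≠ algebraMap K L (a j)) (m : Fin q → Ideal (𝓞 K))
    (hm0 : ∀ j, m j ≠ ⊥)
    (hm : ∀ j, ∀ v : HeightOneSpectrum (𝓞 K), v.asIdeal ∣ m j →
      ∃ w : FinitePlace L, lies v w ∧ w (ck (β j, c) y) < max (w y) 1) :
    ∑ j, rl (m j) ≤ cnt S a y + q * (Module.finrank ℚ L * Real.log M) := by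
  classical
  have hex : ∀ (j : Fin q) (v : HeightOneSpectrum (𝓞 K)), ∃ w : FinitePlace L,
      v ∈ pd (m j) → lies v w ∧ w (ck (β j, c) y) < max (w y) 1 := by
    intro j v
    by_cases hv : v ∈ pd (m j)
    · obtain ⟨w, h1, h2⟩ := hm j v ((mem_pd (hm0 j) v).1 hv)
      exact ⟨w, fun _ => ⟨h1, h2⟩⟩
    · have : Nonempty (HeightOneSpectrum (𝓞 L)) := by
        obtain ⟨P, -⟩ := Pool.Agent.Y729.DB.exists_above (k := K) (F := L) v
        exact ⟨P⟩
      exact ⟨FinitePlace.mk (Classical.arbitrary _), fun h => absurd h hv⟩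
  choose W hW using hex
  have hinj : ∀ j, Set.InjOn (fun v => (W j v).maximalIdeal) (pd (m j) : Set _) := by
    intro j v hv v' hv' h
    have h1 := (hW j v hv).1
    have h2 := (hW j v' hv').1
    have h3 : W j v = W j v' := by
      rw [← FinitePlace.mk_maximalIdeal (W j v), ← FinitePlace.mk_maximalIdeal (W j v')]
      exact congrArg _ h
    rw [← h3] at h2
    have h4 := relNorm_dvd v _ h1
    have h5 := relNorm_dvd v' _ h2
    have h6 : Prime v.asIdeal := v.prime
    obtain ⟨i, -, hi⟩ := (dvd_prime_pow h6 _).1 h4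
    rw [associated_iff_eq] at hi
    have h7 : i ≠ 0 := by
      rintro rfl
      rw [pow_zero] at hi
      have h8 := two_le_qq (W j v)
      have h9 : qq (W j v) = 1 := by
        unfold qq
        rw [← Ideal.absNorm_relNorm (𝓞 K) (𝓞 L), hi, map_one]
      omega
    have h8 : v.asIdeal ∣ v'.asIdeal ^ Module.finrank K L :=
      (dvd_pow_self _ h7).trans (hi ▸ h5)
    have h9 := (v.prime.dvd_prime_iff_associated v'.prime).1 (v.prime.dvd_of_dvd_pow h8)
    rw [associated_iff_eq] at h9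
    exact HeightOneSpectrum.ext h9
  set P : Fin q → Finset (HeightOneSpectrum (𝓞 L)) := fun j =>
    (pd (m j)).image fun v => (W j v).maximalIdeal with hP
  have hPm : ∀ j, ∀ w ∈ P j, fv w (ck (β j, c) y) < max (fv w y) 1 := by
    intro j w hw
    obtain ⟨v, hv, rfl⟩ := Finset.mem_image.1 hw
    have h := (hW j v hv).2
    rw [place_fv, place_fv] at h
    exact h
  have h1 : ∀ j, rl (m j) ≤ ∑ w ∈ P j, Real.log (Ideal.absNorm w.asIdeal : ℝ) := by
    intro j
    rw [hP]
    simp only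
    rw [Finset.sum_image (hinj j)]
    refine Finset.sum_le_sum fun v hv => ?_
    have h2 := le_qq_k v _ (hW j v hv).1
    have h3 : (1 : ℝ) ≤ (Ideal.absNorm v.asIdeal : ℝ) := absNorm_pos_real K _ v.ne_bot
    refine Real.log_le_log (by linarith) ?_
    exact_mod_cast h2
  have h2 : ∀ j, ∑ w ∈ P j, Real.log (Ideal.absNorm w.asIdeal : ℝ) ≤
      ∑ w ∈ (P j).filter (fun w => fv w (M : L) = 1), Real.log (Ideal.absNorm w.asIdeal : ℝ) +
        Module.finrank ℚ L * Real.log M := by
    intro j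
    rw [← Finset.sum_filter_add_sum_filter_not (P j) (fun w => fv w (M : L) = 1)]
    have := Pool.Agent.Y729.FW.primes_above (K := L) M hM
      ((P j).filter fun w => ¬ fv w (M : L) = 1) (fun w hw => (Finset.mem_filter.1 hw).2)
    linarith
  have hdisj : ∀ i ∈ (Finset.univ : Finset (Fin q)), ∀ j ∈ (Finset.univ : Finset (Fin q)),
      i ≠ j → Disjoint ((P i).filter fun w => fv w (M : L) = 1)
        ((P j).filter fun w => fv w (M : L) = 1) := by
    intro i _ j _ hij
    rw [Finset.disjoint_left]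
    intro w hw hw'
    obtain ⟨hw1, hw2⟩ := Finset.mem_filter.1 hw
    obtain ⟨hw1', -⟩ := Finset.mem_filter.1 hw'
    obtain ⟨-, g2, g3⟩ := hgood w hw2
    obtain ⟨-, h4, -⟩ := near_of w (β i) c (a i) (hβ i) g2 y (hPm i w hw1)
    obtain ⟨-, h5, -⟩ := near_of w (β j) c (a j) (hβ j) g2 y (hPm j w hw1')
    have h6 := g3 i j hij
    have h7 : algebraMap K L ((β i - β j : 𝓞 K) : K) = ck (β i, c) y - ck (β j, c) y := by
      have e1 : ((β i - β j : 𝓞 K) : K) = (β i : K) - (β j : K) := map_sub _ _ _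
      rw [e1, map_sub]
      unfold ck
      ring
    rw [h7] at h6
    have h8 := Valuation.map_sub_lt (w.valuation L) h4 h5
    exact absurd h6 h8.ne
  have h3 : ∑ j, ∑ w ∈ (P j).filter (fun w => fv w (M : L) = 1),
      Real.log (Ideal.absNorm w.asIdeal : ℝ) ≤ cnt S a y := by
    rw [← Finset.sum_biUnion hdisj, cnt_eq S hy]
    refine Finset.sum_le_sum_of_subset_of_nonneg ?_ fun w _ _ => Real.log_natCast_nonneg _
    intro w hw
    obtain ⟨j, -, hw⟩ := Finset.mem_biUnion.1 hw
    obtain ⟨hw1, hw2⟩ := Finset.mem_filter.1 hw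
    obtain ⟨g1, g2, -⟩ := hgood w hw2
    obtain ⟨h4, -, h6⟩ := near_of w (β j) c (a j) (hβ j) g2 y (hPm j w hw1)
    rw [Set.Finite.mem_toFinset]
    exact ⟨g1, h4, j, h6⟩
  calc ∑ j, rl (m j) ≤ ∑ j, (∑ w ∈ (P j).filter (fun w => fv w (M : L) = 1),
        Real.log (Ideal.absNorm w.asIdeal : ℝ) + Module.finrank ℚ L * Real.log M) :=
        Finset.sum_le_sum fun j _ => (h1 j).trans (h2 j)
    _ = ∑ j, ∑ w ∈ (P j).filter (fun w => fv w (M : L) = 1),
        Real.log (Ideal.absNorm w.asIdeal : ℝ) + q * (Module.finrank ℚ L * Real.log M) := by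
        rw [Finset.sum_add_distrib, Finset.sum_const, Finset.card_univ, Fintype.card_fin,
          nsmul_eq_mul]
    _ ≤ _ := by linarith

end Pool.Agent.Y729.RV
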