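import Mathlib
import Pool.Agent.Y729.RV.Avg
import Pool.Agent.Y729.RV.RadSum
import Pool.Agent.Y729.AE.Fiber

/-!
# Elements of a field with small truncated counting function, uniformly in the field
-/

set_option autoImplicit false

namespace Pool.Agent.Y729.RV

open NumberField IsDedekindDomain Module Height
open Pool.Agent.H691R3 (fv)
open Pool.Agent.Y729.FW (fv_eq_one_iff logN_nonneg)
open Pool.Agent.Y729.TU (tunit_card)
open Pool.Agent.Y729.AE (sets_card ht_ext)

section

variable {K L : Type} [Field K] [NumberField K] [Field L] [NumberField L] [Algebra K L]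

theorem good_a {w : HeightOneSpectrum (𝓞 L)} {c β : 𝓞 K} {a : K} (hβ : (β : K) = (c : K) * a)
    (hc : w.valuation L (algebraMap K L (c : K)) = 1) : w.valuation L (algebraMap K L a) ≤ 1 := by
  have h1 := int_le w β
  rw [hβ, map_mul, map_mul, hc, one_mul] at h1
  exact h1

theorem dat {q : ℕ} (hq : 2 ≤ q) (S : Finset ℕ) (a : Fin q → K) (c : 𝓞 K) (β : Fin q → 𝓞 K)
    (M : ℕ) (hβ : ∀ j, (β j : K) = (c : K) * a j)
    (hgood : ∀ w : HeightOneSpectrum (𝓞 L),
        fv w (M : L) = 1 → (∀ p ∈ S, (p : 𝓞 L) ∉ w.asIdeal) ∧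
          w.valuation L (algebraMap K L (c : K)) = 1 ∧
          ∀ i j, i ≠ j → w.valuation L (algebraMap K L ((β i - β j : 𝓞 K) : K)) = 1)
    (y : L) (hy : ∀ j, y ≠ algebraMap K L (a j)) :
    ∃ (i j : Fin q) (U : Finset (HeightOneSpectrum (𝓞 L))), i ≠ j ∧
      ∑ w ∈ U, Real.log (Ideal.absNorm w.asIdeal : ℝ) ≤ 2 / q * cnt S a y ∧
      ∀ w, w ∉ U → fv w (M : L) = 1 →
        fv w ((y - algebraMap K L (a i)) / (y - algebraMap K L (a j))) = 1 := by
  classical
  set P : Fin q → Finset (HeightOneSpectrum (𝓞 L)) := fun j =>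
    (val_fin (sub_ne_zero.2 (hy j))).toFinset.filter
      (fun w => fv w (M : L) = 1 ∧ w.valuation L y ≤ 1) with hP
  have hPm : ∀ j w, w ∈ P j ↔ w.valuation L (y - algebraMap K L (a j)) < 1 ∧
      fv w (M : L) = 1 ∧ w.valuation L y ≤ 1 := by
    intro j w
    rw [hP]
    simp only
    rw [Finset.mem_filter, Set.Finite.mem_toFinset]
    rfl
  have hdisj : ∀ i ∈ (Finset.univ : Finset (Fin q)), ∀ j ∈ (Finset.univ : Finset (Fin q)),
      i ≠ j → Disjoint (P i) (P j) := by
    intro i _ j _ hij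
    rw [Finset.disjoint_left]
    intro w hw hw'
    rw [hPm] at hw hw'
    obtain ⟨-, g2, g3⟩ := hgood w hw.2.1
    have h6 := g3 i j hij
    have e1 : ((β i - β j : 𝓞 K) : K) = (β i : K) - (β j : K) := map_sub _ _ _
    have h7 : algebraMap K L ((β i - β j : 𝓞 K) : K) = algebraMap K L (c : K) *
        ((y - algebraMap K L (a j)) - (y - algebraMap K L (a i))) := by
      rw [e1, hβ, hβ, map_sub, map_mul, map_mul]
      ring
    rw [h7, map_mul, g2, one_mul] at h6
    have h8 := Valuation.map_sub_lt (w.valuation L) hw'.1 hw.1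
    exact absurd h6 h8.ne
  have hsum : ∑ j, ∑ w ∈ P j, Real.log (Ideal.absNorm w.asIdeal : ℝ) ≤ cnt S a y := by
    rw [← Finset.sum_biUnion hdisj, cnt_eq S hy]
    refine Finset.sum_le_sum_of_subset_of_nonneg ?_ fun w _ _ => Real.log_natCast_nonneg _
    intro w hw
    obtain ⟨j, -, hw⟩ := Finset.mem_biUnion.1 hw
    rw [hPm] at hw
    obtain ⟨g1, -, -⟩ := hgood w hw.2.1
    rw [Set.Finite.mem_toFinset]
    exact ⟨g1, hw.2.2, j, hw.1⟩
  obtain ⟨J, -, hJ2, hJs⟩ := small_subset (Finset.univ : Finset (Fin q))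
    (fun j => ∑ w ∈ P j, Real.log (Ideal.absNorm w.asIdeal : ℝ)) 2 (by norm_num)
    (by rw [Finset.card_univ, Fintype.card_fin]; exact hq)
  rw [Finset.card_univ, Fintype.card_fin] at hJs
  obtain ⟨i, j, hij, hJij⟩ := Finset.card_eq_two.1 hJ2
  have hqR : (0 : ℝ) < q := by exact_mod_cast (show 0 < q by omega)
  refine ⟨i, j, P i ∪ P j, hij, ?_, ?_⟩
  · rw [Finset.sum_union (hdisj i (Finset.mem_univ _) j (Finset.mem_univ _) hij)]
    rw [hJij, Finset.sum_pair hij] at hJs
    have h1 : (q : ℝ) * (∑ w ∈ P i, Real.log (Ideal.absNorm w.asIdeal : ℝ) +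
        ∑ w ∈ P j, Real.log (Ideal.absNorm w.asIdeal : ℝ)) ≤ q * (2 / q * cnt S a y) := by
      have h2 : (q : ℝ) * (2 / q * cnt S a y) = 2 * cnt S a y := by field_simp
      rw [h2]
      push_cast at hJs
      linarith
    exact le_of_mul_le_mul_left h1 hqR
  · intro w hwU hwM
    rw [Finset.mem_union, not_or, hPm, hPm] at hwU
    obtain ⟨-, g2, -⟩ := hgood w hwM
    rw [fv_eq_one_iff, map_div₀]
    have ha : ∀ j, w.valuation L (algebraMap K L (a j)) ≤ 1 := fun j => good_a (hβ j) g2
    rcases le_or_gt (w.valuation L y) 1 with hle | hgt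
    · have hone : ∀ l : Fin q, ¬ (w.valuation L (y - algebraMap K L (a l)) < 1 ∧
          fv w (M : L) = 1 ∧ w.valuation L y ≤ 1) →
          w.valuation L (y - algebraMap K L (a l)) = 1 := by
        intro l hl
        refine le_antisymm ?_ ?_
        · exact (w.valuation L).map_sub_le hle (ha l)
        · rw [← not_lt]
          exact fun h => hl ⟨h, hwM, hle⟩
      rw [hone i hwU.1, hone j hwU.2, div_one]
    · have hone : ∀ l : Fin q, w.valuation L (y - algebraMap K L (a l)) = w.valuation L y :=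
        fun l => Valuation.map_sub_eq_of_lt_left _ ((ha l).trans_lt hgt)
      rw [hone i, hone j]
      refine div_self ?_
      intro h0
      rw [h0] at hgt
      exact absurd hgt (not_lt.2 zero_le_one)

/-- the height of the ratio -/
theorem ratio_ht (a b : K) (y : L) {A : ℝ} (ha : logHeight₁ a ≤ A) (hb : logHeight₁ b ≤ A) :
    logHeight₁ ((y - algebraMap K L a) / (y - algebraMap K L b)) ≤
      2 * logHeight₁ y + 2 * (finrank ℚ L * Real.log 2 + finrank K L * A) := by
  have h1 : ∀ c : K, logHeight₁ c ≤ A → logHeight₁ (y - algebraMap K L c) ≤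
      logHeight₁ y + (finrank ℚ L * Real.log 2 + finrank K L * A) := by
    intro c hc
    have h2 := logHeight₁_sub_le y (algebraMap K L c)
    rw [NumberField.totalWeight_eq_finrank, ht_ext] at h2
    have h3 : (finrank K L : ℝ) * logHeight₁ c ≤ finrank K L * A :=
      mul_le_mul_of_nonneg_left hc (Nat.cast_nonneg _)
    linarith
  rw [div_eq_mul_inv]
  refine (logHeight₁_mul_le _ _).trans ?_
  rw [logHeight₁_inv]
  have h2 := h1 a ha
  have h3 := h1 b hb
  linarith

theorem ratio_inj {a b y y' : L} (hab : a ≠ b) (hy : y ≠ b) (hy' : y' ≠ b)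
    (h : (y - a) / (y - b) = (y' - a) / (y' - b)) : y = y' := by
  rw [div_eq_div_iff (sub_ne_zero.2 hy) (sub_ne_zero.2 hy')] at h
  have h1 : (b - a) * (y - y') = 0 := by linear_combination -h
  rcases mul_eq_zero.1 h1 with h2 | h2
  · exact absurd (sub_eq_zero.1 h2).symm hab
  · exact sub_eq_zero.1 h2

end

/-- **The elements of a field with small height and small truncated counting function**,
uniformly in the field. -/
theorem per_field {K : Type} [Field K] [NumberField K] {q : ℕ} (hq : 2 ≤ q) (S : Finset ℕ)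
    (hS : ∀ p ∈ S, p.Prime) (a : Fin q → K) (ha : Function.Injective a) (n : ℕ) {ε : ℝ}
    (hε : 0 < ε) :
    ∃ D : ℝ, 0 < D ∧ ∀ (L : Type) [Field L] [NumberField L] [Algebra K L], finrank ℚ L = n →
      ∀ X Z : ℝ, 0 ≤ X → 0 ≤ Z → ∀ E : Finset L,
        (∀ y ∈ E, (∀ j, y ≠ algebraMap K L (a j)) ∧ logHeight₁ y ≤ X ∧ cnt S a y ≤ Z) →
        (E.card : ℝ) ≤ D * Real.exp (2 / q * Z + ε * (X + Z)) := by
  classical
  obtain ⟨c, β, M, hc0, hβ, hM, hβinj, hgood⟩ := setup S hS a ha
  set η : ℝ := ε / 4 with hη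
  have hη0 : 0 < η := by positivity
  obtain ⟨D1, hD1, h1⟩ := sets_card n hη0
  obtain ⟨D2, hD2, h2⟩ := tunit_card n hη0
  have hqR : (2 : ℝ) ≤ q := by exact_mod_cast hq
  have hM1 : (1 : ℝ) ≤ M := by exact_mod_cast Nat.one_le_iff_ne_zero.2 hM
  have hlM : 0 ≤ Real.log M := Real.log_nonneg hM1
  -- a bound for the heights of the points
  set A : ℝ := ∑ j, logHeight₁ (a j) with hA
  have hA0 : 0 ≤ A := Finset.sum_nonneg fun j _ => zero_le_logHeight₁ _
  have hAj : ∀ j, logHeight₁ (a j) ≤ A := fun j =>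
    Finset.single_le_sum (f := fun j => logHeight₁ (a j)) (fun j _ => zero_le_logHeight₁ _)
      (Finset.mem_univ j)
  have hl2 : 0 ≤ Real.log 2 := Real.log_nonneg (by norm_num)
  set c1 : ℝ := 2 * (n * Real.log 2 + n * A) with hc1
  have hc10 : 0 ≤ c1 := by positivity
  refine ⟨(q * q * D1) * (D2 * Real.exp (η * (c1 + n * Real.log M))), by positivity, ?_⟩
  intro L _ _ _ hL X Z hX hZ E hE
  have hKL : (finrank K L : ℝ) ≤ n := by
    have h3 : finrank ℚ K * finrank K L = finrank ℚ L := finrank_mul_finrank ℚ K L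
    have h4 : 0 < finrank ℚ K := finrank_pos
    have h5 : finrank K L ≤ finrank ℚ L := by
      rw [← h3]
      exact Nat.le_mul_of_pos_left _ h4
    rw [hL] at h5
    exact_mod_cast h5
  have hex : ∀ y : L, ∃ t : (Fin q × Fin q) × Finset (HeightOneSpectrum (𝓞 L)),
      y ∈ E → (t.1.1 ≠ t.1.2 ∧
      ∑ w ∈ t.2, Real.log (Ideal.absNorm w.asIdeal : ℝ) ≤ 2 / q * Z ∧
      ∀ w, w ∉ t.2 → fv w (M : L) = 1 →
        fv w ((y - algebraMap K L (a t.1.1)) / (y - algebraMap K L (a t.1.2))) = 1) := by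
    intro y
    by_cases hy : y ∈ E
    · obtain ⟨i, j, U, hij, hU1, hU2⟩ := dat hq S a c β M hβ (hgood L) y (hE y hy).1
      refine ⟨((i, j), U), fun _ => ⟨hij, hU1.trans ?_, hU2⟩⟩
      exact mul_le_mul_of_nonneg_left (hE y hy).2.2 (by positivity)
    · have hqpos : 0 < q := by omega
      exact ⟨((⟨0, hqpos⟩, ⟨0, hqpos⟩), ∅), fun h => absurd h hy⟩
  choose t ht using hex
  -- the image
  have himg : ((E.image t).card : ℝ) ≤ (q * q) * (D1 * Real.exp ((1 + η) * (2 / q * Z))) := by
    have hsub : E.image t ⊆ (Finset.univ : Finset (Fin q × Fin q)) ×ˢ (E.image fun y => (t y).2) := by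
      intro s hs
      obtain ⟨y, hy, rfl⟩ := Finset.mem_image.1 hs
      exact Finset.mem_product.2 ⟨Finset.mem_univ _, Finset.mem_image_of_mem _ hy⟩
    have h3 := Finset.card_le_card hsub
    rw [Finset.card_product, Finset.card_univ, Fintype.card_prod, Fintype.card_fin] at h3
    have h4 : ((E.image fun y => (t y).2).card : ℝ) ≤ D1 * Real.exp ((1 + η) * (2 / q * Z)) := by
      refine h1 L hL _ _ ?_
      intro U hU
      obtain ⟨y, hy, rfl⟩ := Finset.mem_image.1 hU
      exact (ht y hy).2.1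
    calc ((E.image t).card : ℝ) ≤ ((q * q : ℕ) : ℝ) * ((E.image fun y => (t y).2).card : ℝ) := by
          exact_mod_cast h3
      _ ≤ _ := by
          push_cast
          exact mul_le_mul_of_nonneg_left h4 (by positivity)
  -- the fibres
  have hfib : ∀ s ∈ E.image t, ((E.filter fun y => t y = s).card : ℝ) ≤
      D2 * Real.exp (η * ((2 * X + c1) + (2 / q * Z + n * Real.log M))) := by
    intro s hs
    obtain ⟨y0, hy0, rfl⟩ := Finset.mem_image.1 hs
    obtain ⟨hij, hU, -⟩ := ht y0 hy0
    set G := E.filter fun y => t y = t y0 with hG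
    have hGm : ∀ y ∈ G, y ∈ E ∧ t y = t y0 := fun y hy => Finset.mem_filter.1 hy
    set f : L → L := fun y => (y - algebraMap K L (a (t y0).1.1)) /
      (y - algebraMap K L (a (t y0).1.2)) with hf
    have haij : algebraMap K L (a (t y0).1.1) ≠ algebraMap K L (a (t y0).1.2) := fun h =>
      hij (ha ((algebraMap K L).injective h))
    have hinj : Set.InjOn f (G : Set L) := by
      intro y hy y' hy' h
      exact ratio_inj haij ((hE y (hGm y hy).1).1 _) ((hE y' (hGm y' hy').1).1 _) h
    rw [← Finset.card_image_of_injOn hinj]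
    obtain ⟨T, hT1, hT2⟩ := Pool.Agent.Y729.AE.exists_T (L := L) (M := L) M hM (t y0).2
    have hcomap : ∀ w : HeightOneSpectrum (𝓞 L),
        w.asIdeal.comap (algebraMap (𝓞 L) (𝓞 L)) = w.asIdeal := by
      intro w
      have : algebraMap (𝓞 L) (𝓞 L) = RingHom.id _ := rfl
      rw [this, Ideal.comap_id]
    rw [finrank_self, Nat.cast_one, one_mul, hL] at hT2
    refine (h2 L hL T (2 * X + c1) _ (by positivity) ?_).trans ?_
    · intro u hu
      obtain ⟨y, hy, rfl⟩ := Finset.mem_image.1 hu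
      obtain ⟨hyE, hyt⟩ := hGm y hy
      obtain ⟨g1, g2, g3⟩ := hE y hyE
      refine ⟨?_, ?_, ?_, ?_⟩
      · exact div_ne_zero (sub_ne_zero.2 (g1 _)) (sub_ne_zero.2 (g1 _))
      · intro h
        rw [hf] at h
        simp only at h
        rw [div_eq_one_iff_eq (sub_ne_zero.2 (g1 _))] at h
        exact haij (sub_right_inj.1 h)
      · intro w hw
        obtain ⟨g4, g5⟩ := hT1 w hw
        have g6 : w ∉ (t y).2 := by
          rw [hyt]
          intro h
          exact g5 w h (hcomap w)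
        have g7 := (ht y hyE).2.2 w g6 g4
        rw [hyt] at g7
        exact g7
      · refine (ratio_ht _ _ y (hAj _) (hAj _)).trans ?_
        rw [hL, hc1]
        have : (finrank K L : ℝ) * A ≤ n * A := mul_le_mul_of_nonneg_right hKL hA0
        linarith
    · have h3 : ∑ v ∈ T, Real.log (Pool.Agent.H691R3.Nv v) ≤ 2 / q * Z + n * Real.log M := by
        have h4 : ∑ v ∈ T, Real.log (Pool.Agent.H691R3.Nv v) =
            ∑ v ∈ T, Real.log (Ideal.absNorm v.asIdeal : ℝ) := rfl
        rw [h4]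
        linarith
      gcongr
  have hcard : (E.card : ℝ) = ∑ s ∈ E.image t, ((E.filter fun y => t y = s).card : ℝ) := by
    rw [Finset.card_eq_sum_card_image t E]
    push_cast
    rfl
  calc (E.card : ℝ) = ∑ s ∈ E.image t, ((E.filter fun y => t y = s).card : ℝ) := hcard
    _ ≤ ∑ _s ∈ E.image t, D2 * Real.exp (η * ((2 * X + c1) + (2 / q * Z + n * Real.log M))) :=
        Finset.sum_le_sum hfib
    _ = ((E.image t).card : ℝ) *
          (D2 * Real.exp (η * ((2 * X + c1) + (2 / q * Z + n * Real.log M)))) := by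
        rw [Finset.sum_const, nsmul_eq_mul]
    _ ≤ ((q * q) * (D1 * Real.exp ((1 + η) * (2 / q * Z)))) *
          (D2 * Real.exp (η * ((2 * X + c1) + (2 / q * Z + n * Real.log M)))) :=
        mul_le_mul_of_nonneg_right himg (by positivity)
    _ = (q * q * D1) * (D2 * Real.exp (η * (c1 + n * Real.log M))) *
          Real.exp (2 / q * Z + η * (2 * X + 2 * (2 / q * Z))) := by
        have e1 : η * ((2 * X + c1) + (2 / q * Z + n * Real.log M)) =
            η * (c1 + n * Real.log M) + η * (2 * X + 2 / q * Z) := by ring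
        have e2 : Real.exp (2 / q * Z + η * (2 * X + 2 * (2 / q * Z))) =
            Real.exp ((1 + η) * (2 / q * Z)) * Real.exp (η * (2 * X + 2 / q * Z)) := by
          rw [← Real.exp_add]
          congr 1
          ring
        rw [e1, Real.exp_add, e2]
        ring
    _ ≤ _ := by
        refine mul_le_mul_of_nonneg_left (Real.exp_le_exp.2 ?_) (by positivity)
        have e3 : 2 / (q : ℝ) * Z ≤ Z := by
          have : 2 / (q : ℝ) ≤ 1 := by
            rw [div_le_one (by linarith)]
            exact hqR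
          calc 2 / (q : ℝ) * Z ≤ 1 * Z := mul_le_mul_of_nonneg_right this hZ
            _ = Z := one_mul _
        have e4 : η * (2 * X + 2 * (2 / q * Z)) ≤ ε * (X + Z) := by
          have : η * (2 * X + 2 * (2 / q * Z)) ≤ η * (2 * X + 2 * Z) := by gcongr
          rw [hη] at this ⊢
          nlinarith
        linarith

end Pool.Agent.Y729.RV
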