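import Mathlib
import Pool.Agent.H645R3.VK6
import Pool.Agent.Y729.RV.Rad

/-!
# Algebraic numbers with given value ideals
-/

set_option autoImplicit false

namespace Pool.Agent.Y729.RV

open Finset NumberField IsDedekindDomain Height H645.VB H645.VK

open scoped Classical

variable {k : Type} [Field k] [NumberField k]

/-- the value ideals are in given sets -/
def GoodR (r : ℕ) (J1 J2 : Finset (𝓞 k × 𝓞 k)) (T1 : Finset (J1 → Ideal (𝓞 k)))
    (X Y : ℝ) (x : Om k) : Prop :=
  (minpoly k x).natDegree = r ∧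
  ∃ (l : k) (n : Ideal (𝓞 k)) (z : 𝓞 k × 𝓞 k → 𝓞 k) (m : 𝓞 k × 𝓞 k → Ideal (𝓞 k)),
    l ≠ 0 ∧ n ≠ ⊥ ∧
    (∀ a ∈ J1 ∪ J2, z a ≠ 0 ∧ ((z a : 𝓞 k) : k) = l * homk (minpoly k x) r a ∧
      Ideal.span {z a} = n * m a) ∧
    (fun a : J1 => m a) ∈ T1 ∧ (∀ a ∈ J2, m a ∈ idF k X) ∧
    ∀ a ∈ J1 ∪ J2, ∀ b ∈ J1 ∪ J2, ∀ v : InfinitePlace k,
      v (homk (minpoly k x) r a / homk (minpoly k x) r b) ≤ Y

theorem goodR_count (r : ℕ) (hr : 1 ≤ r) (J1 J2 : Finset (𝓞 k × 𝓞 k))
    (hdisj : Disjoint J1 J2) (hJc : J1.card + J2.card = r + 1)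
    (hJ : ∀ a ∈ J1 ∪ J2, ∀ b ∈ J1 ∪ J2, a ≠ b → a.1 * b.2 ≠ a.2 * b.1)
    (T1 : Finset (J1 → Ideal (𝓞 k))) (X Y : ℝ) :
    {x : Om k | GoodR r J1 J2 T1 X Y x}.Finite ∧
      ({x : Om k | GoodR r J1 J2 T1 X Y x}.ncard : ℝ) ≤
        r * ((T1.card * (idF k X).card ^ J2.card) * (unF k (Y * Y)).card ^ (r + 1)) := by
  classical
  have hJcard : (J1 ∪ J2).card = r + 1 := by rw [Finset.card_union_of_disjoint hdisj, hJc]
  obtain ⟨b, hb⟩ : (J1 ∪ J2).Nonempty := Finset.card_pos.1 (by omega)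
  have hdata : ∀ x : Om k, ∃ (l : k) (n : Ideal (𝓞 k)) (z : 𝓞 k × 𝓞 k → 𝓞 k)
    (m : 𝓞 k × 𝓞 k → Ideal (𝓞 k)), GoodR r J1 J2 T1 X Y x →
    (l ≠ 0 ∧ n ≠ ⊥ ∧
    (∀ a ∈ J1 ∪ J2, z a ≠ 0 ∧ ((z a : 𝓞 k) : k) = l * homk (minpoly k x) r a ∧
      Ideal.span {z a} = n * m a) ∧
    (fun a : J1 => m a) ∈ T1 ∧ (∀ a ∈ J2, m a ∈ idF k X)) := by
    intro x
    by_cases hx : GoodR r J1 J2 T1 X Y x
    · obtain ⟨-, l, n, z, m, h1, h2, h3, h4, h5, -⟩ := hx
      exact ⟨l, n, z, m, fun _ => ⟨h1, h2, h3, h4, h5⟩⟩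
    · exact ⟨0, ⊥, fun _ => 0, fun _ => ⊥, fun h => absurd h hx⟩
  choose l n z m hd using hdata
  -- the code
  let code : Om k → (J1 → Ideal (𝓞 k)) × (J2 → Ideal (𝓞 k)) :=
    fun x => (fun a => m x a, fun a => m x a)
  let ref : ((J1 → Ideal (𝓞 k)) × (J2 → Ideal (𝓞 k))) → Om k :=
    fun c => if h : ∃ x, GoodR r J1 J2 T1 X Y x ∧ code x = c then h.choose else 0
  have href : ∀ x, GoodR r J1 J2 T1 X Y x → GoodR r J1 J2 T1 X Y (ref (code x)) ∧
      code (ref (code x)) = code x := by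
    intro x hx
    have h : ∃ x', GoodR r J1 J2 T1 X Y x' ∧ code x' = code x := ⟨x, hx, rfl⟩
    have : ref (code x) = h.choose := dif_pos h
    rw [this]
    exact h.choose_spec
  have hsm : ∀ x x', code x = code x' → ∀ a ∈ J1 ∪ J2, m x a = m x' a := by
    intro x x' h a ha
    have h1 : ((fun a : J1 => m x a), fun a : J2 => m x a) =
      ((fun a : J1 => m x' a), fun a : J2 => m x' a) := h
    rcases Finset.mem_union.1 ha with ha' | ha'
    · exact congrFun (congrArg (fun q => q.1) h1) ⟨a, ha'⟩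
    · exact congrFun (congrArg (fun q => q.2) h1) ⟨a, ha'⟩
  -- the units
  have hunit : ∀ (x : Om k) (a : 𝓞 k × 𝓞 k), ∃ u : (𝓞 k)ˣ, GoodR r J1 J2 T1 X Y x → a ∈ J1 ∪ J2 →
      (z x a * z (ref (code x)) b = u * (z x b * z (ref (code x)) a) ∧ u ∈ unF k (Y * Y)) := by
    intro x a
    by_cases hx : GoodR r J1 J2 T1 X Y x
    · by_cases ha : a ∈ J1 ∪ J2
      · obtain ⟨hx', hcode⟩ := href x hx
        set x' := ref (code x) with hx'def
        obtain ⟨hl, -, h3, -⟩ := hd x hx
        obtain ⟨hl', -, h3', -⟩ := hd x' hx'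
        obtain ⟨a1, a2, a3⟩ := h3 a ha
        obtain ⟨b1, b2, b3⟩ := h3 b hb
        obtain ⟨a1', a2', a3'⟩ := h3' a ha
        obtain ⟨b1', b2', b3'⟩ := h3' b hb
        have hA := hsm x' x hcode a ha
        have hB := hsm x' x hcode b hb
        have hspan : Ideal.span {z x a * z x' b} = Ideal.span {z x b * z x' a} := by
          rw [← Ideal.span_singleton_mul_span_singleton, ← Ideal.span_singleton_mul_span_singleton,
            a3, b3', b3, a3', hA, hB]
          ring
        have hassoc := Ideal.span_singleton_eq_span_singleton.1 hspan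
        obtain ⟨u, hu⟩ := hassoc.symm
        refine ⟨u, fun _ _ => ⟨?_, ?_⟩⟩
        · rw [← hu]; ring
        · rw [mem_unF]
          intro v
          have e0 : ((u : 𝓞 k) : k) =
              (homk (minpoly k x) r a / homk (minpoly k x) r b) *
              (homk (minpoly k x') r b / homk (minpoly k x') r a) := by
            have c1 : ((z x a : 𝓞 k) : k) ≠ 0 := coe_ne _ a1
            have c2 : ((z x b : 𝓞 k) : k) ≠ 0 := coe_ne _ b1
            have c3 : ((z x' a : 𝓞 k) : k) ≠ 0 := coe_ne _ a1'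
            have c4 : ((z x' b : 𝓞 k) : k) ≠ 0 := coe_ne _ b1'
            have g2 : homk (minpoly k x) r b ≠ 0 := by
              intro h; rw [b2, h, mul_zero] at c2; exact c2 rfl
            have g3 : homk (minpoly k x') r a ≠ 0 := by
              intro h; rw [a2', h, mul_zero] at c3; exact c3 rfl
            have hu' : ((z x b : 𝓞 k) : k) * ((z x' a : 𝓞 k) : k) * ((u : 𝓞 k) : k) =
                ((z x a : 𝓞 k) : k) * ((z x' b : 𝓞 k) : k) := by
              have := congrArg (fun t : 𝓞 k => (t : k)) hu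
              exact this
            rw [b2, a2', a2, b2'] at hu'
            rw [div_mul_div_comm, eq_div_iff (mul_ne_zero g2 g3)]
            have hll : l x * l x' ≠ 0 := mul_ne_zero hl hl'
            have hfin : (l x * l x') * (((u : 𝓞 k) : k) *
                (homk (minpoly k x) r b * homk (minpoly k x') r a)) =
                (l x * l x') * (homk (minpoly k x) r a * homk (minpoly k x') r b) := by
              linear_combination hu'
            exact mul_left_cancel₀ hll hfin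
          rw [e0, map_mul]
          obtain ⟨-, _, _, _, _, -, -, -, -, -, hY⟩ := hx
          obtain ⟨-, _, _, _, _, -, -, -, -, -, hY'⟩ := hx'
          have g1 := hY a ha b hb v
          have g2 := hY' b hb a ha v
          exact mul_le_mul g1 g2 (apply_nonneg v _) ((apply_nonneg v _).trans g1)
      · exact ⟨1, fun _ h => absurd h ha⟩
    · exact ⟨1, fun h => absurd h hx⟩
  choose U hU using hunit
  let F : Om k → ((J1 → Ideal (𝓞 k)) × (J2 → Ideal (𝓞 k))) ×
      ((J1 ∪ J2 : Finset _) → (𝓞 k)ˣ) := fun x => (code x, fun a => U x a)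
  let T := ((T1 ×ˢ (Fintype.piFinset fun _ : J2 => idF k X)) ×ˢ
    (Fintype.piFinset fun _ : (J1 ∪ J2 : Finset _) => unF k (Y * Y)))
  have hFT : ∀ x, GoodR r J1 J2 T1 X Y x → F x ∈ T := by
    intro x hx
    obtain ⟨-, -, h3, h4, h5⟩ := hd x hx
    simp only [T, F, code, Finset.mem_product, Fintype.mem_piFinset]
    exact ⟨⟨h4, fun a => h5 a a.2⟩, fun a => (hU x a hx a.2).2⟩
  have hfib : ∀ x x', GoodR r J1 J2 T1 X Y x → GoodR r J1 J2 T1 X Y x' → F x = F x' →
      Polynomial.aeval x' (minpoly k x) = 0 := by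
    intro x x' hx hx' hF
    have hcode : code x = code x' := congrArg Prod.fst hF
    have hUU : ∀ a ∈ J1 ∪ J2, U x a = U x' a := fun a ha =>
      congrFun (congrArg Prod.snd hF) ⟨a, ha⟩
    obtain ⟨hl, -, h3, -⟩ := hd x hx
    obtain ⟨hl', -, h3', -⟩ := hd x' hx'
    obtain ⟨b1, b2, -⟩ := h3 b hb
    obtain ⟨b1', b2', -⟩ := h3' b hb
    have hrefx := href x hx
    obtain ⟨-, -, h3r, -⟩ := hd _ hrefx.1
    refine same_root_k r hr (J1 ∪ J2) hJcard hJ x x' hx.1 hx'.1
      (homk (minpoly k x') r b) (homk (minpoly k x) r b) ?_ fun a ha => ?_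
    · intro h
      rw [h, mul_zero] at b2'
      exact coe_ne _ b1' b2'
    · have e1 := (hU x a hx ha).1
      have e2 := (hU x' a hx' ha).1
      rw [← hUU a ha, ← hcode] at e2
      obtain ⟨a1, a2, -⟩ := h3 a ha
      obtain ⟨a1', a2', -⟩ := h3' a ha
      have hrb := (h3r b hb).1
      have hra := (h3r a ha).1
      have e3 : z x a * z x' b = z x' a * z x b := by
        have : (z x a * z x' b) * z (ref (code x)) b = (z x' a * z x b) * z (ref (code x)) b := by
          calc (z x a * z x' b) * z (ref (code x)) b = (z x a * z (ref (code x)) b) * z x' b := by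
                ring
            _ = (z x' a * z (ref (code x)) b) * z x b := by rw [e1, e2]; ring
            _ = _ := by ring
        exact mul_right_cancel₀ hrb this
      have e4 : ((z x a : 𝓞 k) : k) * ((z x' b : 𝓞 k) : k) =
          ((z x' a : 𝓞 k) : k) * ((z x b : 𝓞 k) : k) := congrArg (fun t : 𝓞 k => (t : k)) e3
      rw [a2, b2', a2', b2] at e4
      have hll : l x * l x' ≠ 0 := mul_ne_zero hl hl'
      have hfin : (l x * l x') * (homk (minpoly k x') r b * homk (minpoly k x) r a) =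
          (l x * l x') * (homk (minpoly k x) r b * homk (minpoly k x') r a) := by
        linear_combination e4
      exact mul_left_cancel₀ hll hfin
  let R : (((J1 → Ideal (𝓞 k)) × (J2 → Ideal (𝓞 k))) ×
      ((J1 ∪ J2 : Finset _) → (𝓞 k)ˣ)) → Finset (Om k) := fun t =>
    if h : ∃ x, GoodR r J1 J2 T1 X Y x ∧ F x = t then
      ((minpoly k h.choose).aroots (Om k)).toFinset else ∅
  have hRc : ∀ t, (R t).card ≤ r := by
    intro t
    by_cases h : ∃ x, GoodR r J1 J2 T1 X Y x ∧ F x = t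
    · have : R t = ((minpoly k h.choose).aroots (Om k)).toFinset := dif_pos h
      rw [this]
      refine (Multiset.toFinset_card_le _).trans ?_
      rw [Polynomial.aroots]
      refine (Polynomial.card_roots' _).trans ?_
      rw [Polynomial.natDegree_map, h.choose_spec.1.1]
    · have : R t = ∅ := dif_neg h
      rw [this]; simp
  have hsub : {x : Om k | GoodR r J1 J2 T1 X Y x} ⊆ ↑(T.biUnion R) := by
    intro x hx
    rw [Finset.mem_coe, Finset.mem_biUnion]
    refine ⟨F x, hFT x hx, ?_⟩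
    have h : ∃ x', GoodR r J1 J2 T1 X Y x' ∧ F x' = F x := ⟨x, hx, rfl⟩
    have : R (F x) = ((minpoly k h.choose).aroots (Om k)).toFinset := dif_pos h
    rw [this, Multiset.mem_toFinset, Polynomial.mem_aroots]
    refine ⟨?_, hfib _ _ h.choose_spec.1 hx h.choose_spec.2⟩
    exact minpoly.ne_zero (Algebra.IsIntegral.isIntegral _)
  refine ⟨(Finset.finite_toSet _).subset hsub, ?_⟩
  have h1 : {x : Om k | GoodR r J1 J2 T1 X Y x}.ncard ≤ (T.biUnion R).card := by
    rw [← Set.ncard_coe_finset]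
    exact Set.ncard_le_ncard hsub (Finset.finite_toSet _)
  have h2 : (T.biUnion R).card ≤ T.card * r :=
    Finset.card_biUnion_le_card_mul _ _ _ fun v _ => hRc v
  have h3 : T.card = (T1.card * (idF k X).card ^ J2.card) * (unF k (Y * Y)).card ^ (r + 1) := by
    simp only [T]
    rw [Finset.card_product, Finset.card_product]
    simp only [Fintype.card_piFinset, Finset.prod_const, Finset.card_univ, Fintype.card_coe]
    rw [hJcard]
  calc ({x : Om k | GoodR r J1 J2 T1 X Y x}.ncard : ℝ) ≤ ((T.card * r : ℕ) : ℝ) := by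
        exact_mod_cast h1.trans h2
    _ = _ := by rw [h3]; push_cast; ring

end Pool.Agent.Y729.RV
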