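import Mathlib
import Pool.Agent.H645R3.VK8
import Pool.Agent.Y729.RV.Avg
import Pool.Agent.Y729.RV.Form
import Pool.Agent.Y729.RV.RadSum

/-!
# Counting algebraic numbers of given degree with small truncated counting function
-/

set_option autoImplicit false

namespace Pool.Agent.Y729.RV

open Finset NumberField IsDedekindDomain Height H645.VB H645.VK IntermediateField

open scoped Classical

variable {k : Type} [Field k] [NumberField k]

/-- tuples of ideals with bounded norms and radicals -/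
noncomputable def TT (J1 : Finset (𝓞 k × 𝓞 k)) (X Y : ℝ) : Finset (J1 → Ideal (𝓞 k)) :=
  (Fintype.piFinset fun _ : J1 => idF k (Real.exp X)).filter (fun m => ∑ i, rl (m i) ≤ Y)

theorem goodR_exp (r : ℕ) (hr : 1 ≤ r) (J1 J2 : Finset (𝓞 k × 𝓞 k))
    (hdisj : Disjoint J1 J2) (hJc : J1.card + J2.card = r + 1)
    (hJ : ∀ a ∈ J1 ∪ J2, ∀ b ∈ J1 ∪ J2, a ≠ b → a.1 * b.2 ≠ a.2 * b.1)
    (c0 c1 B μ : ℝ) (hc0 : 0 ≤ c0) (hc1 : 0 ≤ c1) (hB : 1 ≤ B) (hμ : 0 ≤ μ)
    {ε : ℝ} (hε : 0 < ε) :
    ∃ C : ℝ, 0 < C ∧ ∀ X Z : ℝ, 0 ≤ X → 0 ≤ Z →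
      ({x : Om k | GoodR r J1 J2 (TT J1 (X + c0) (μ * Z + c1)) (Real.exp (X + c0))
        (((B * Real.exp X) ^ 2) ^ r) x}.ncard : ℝ) ≤
        C * Real.exp (J2.card * X + μ * Z + ε * (X + Z)) := by
  set M : ℝ := μ + 1 + 4 * r * (r + 1) with hM
  have hM0 : 0 < M := by positivity
  set η := ε / M with hη
  have hη0 : 0 < η := by positivity
  obtain ⟨C1, hC1, h1⟩ := tuples_card k J1 hη0
  obtain ⟨C3, hC3, h3⟩ := idF_card k
  obtain ⟨C4, hC4, h4⟩ := unF_card k η hη0
  refine ⟨r * ((C1 * Real.exp (c1 + η * (c0 + c1))) * (C3 * Real.exp c0) ^ J2.card *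
    (C4 * Real.exp (4 * r * η * Real.log B)) ^ (r + 1)), ?_, ?_⟩
  · have : (0 : ℝ) < r := by exact_mod_cast (show 0 < r by omega)
    positivity
  intro X Z hX hZ
  have g0 := (goodR_count r hr J1 J2 hdisj hJc hJ (TT J1 (X + c0) (μ * Z + c1))
    (Real.exp (X + c0)) (((B * Real.exp X) ^ 2) ^ r)).2
  have hEX : 1 ≤ Real.exp X := Real.one_le_exp hX
  have hBX : 1 ≤ B * Real.exp X := by nlinarith
  have hBX0 : 0 < B * Real.exp X := by linarith
  have hYY : 1 ≤ ((B * Real.exp X) ^ 2) ^ r * ((B * Real.exp X) ^ 2) ^ r := by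
    have := one_le_pow₀ (n := r) (one_le_pow₀ (n := 2) hBX)
    nlinarith
  have g1 := h1 (X + c0) (μ * Z + c1) (by linarith) (by positivity) (TT J1 (X + c0) (μ * Z + c1))
    (by
      intro m hm
      unfold TT at hm
      rw [Finset.mem_filter, Fintype.mem_piFinset] at hm
      refine ⟨fun i => ?_, hm.2⟩
      have h5 := hm.1 i
      rw [mem_idF] at h5
      have hpos : (0 : ℝ) < Ideal.absNorm (m i) :=
        lt_of_lt_of_le one_pos (absNorm_pos_real k _ h5.1)
      exact ⟨h5.1, (Real.log_le_iff_le_exp hpos).2 h5.2⟩)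
  have g3 := h3 (Real.exp (X + c0)) (Real.one_le_exp (by linarith))
  have g4 := h4 _ hYY
  have e1 : (((B * Real.exp X) ^ 2) ^ r * ((B * Real.exp X) ^ 2) ^ r) ^ η =
      Real.exp (4 * r * η * Real.log B) * Real.exp (4 * r * η * X) := by
    rw [← pow_mul, ← pow_add, ← Real.rpow_natCast, ← Real.rpow_mul hBX0.le,
      Real.rpow_def_of_pos hBX0, Real.log_mul (by linarith) (Real.exp_pos X).ne', Real.log_exp,
      ← Real.exp_add]
    congr 1
    push_cast
    ring
  rw [e1] at g4
  calc ({x : Om k | GoodR r J1 J2 (TT J1 (X + c0) (μ * Z + c1)) (Real.exp (X + c0))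
        (((B * Real.exp X) ^ 2) ^ r) x}.ncard : ℝ)
      ≤ r * (((TT J1 (X + c0) (μ * Z + c1)).card * (idF k (Real.exp (X + c0))).card ^ J2.card) *
        (unF k (((B * Real.exp X) ^ 2) ^ r * ((B * Real.exp X) ^ 2) ^ r)).card ^ (r + 1)) := g0
    _ ≤ r * (((C1 * Real.exp ((μ * Z + c1) + η * ((X + c0) + (μ * Z + c1)))) *
        (C3 * Real.exp (X + c0)) ^ J2.card) *
        (C4 * (Real.exp (4 * r * η * Real.log B) * Real.exp (4 * r * η * X))) ^ (r + 1)) := by
        gcongr
    _ = r * ((C1 * Real.exp (c1 + η * (c0 + c1))) * (C3 * Real.exp c0) ^ J2.card *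
        (C4 * Real.exp (4 * r * η * Real.log B)) ^ (r + 1)) *
          Real.exp (J2.card * X + μ * Z + η * (M * X + μ * Z - μ * X)) := by
        have f1 : Real.exp ((μ * Z + c1) + η * ((X + c0) + (μ * Z + c1))) =
            Real.exp (c1 + η * (c0 + c1)) * Real.exp (μ * Z + η * (X + μ * Z)) := by
          rw [← Real.exp_add]; congr 1; ring
        have f2 : (C3 * Real.exp (X + c0)) ^ J2.card =
            (C3 * Real.exp c0) ^ J2.card * Real.exp (J2.card * X) := by
          rw [add_comm X, Real.exp_add, ← mul_assoc, mul_pow, ← Real.exp_nat_mul]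
        have f3 : (C4 * (Real.exp (4 * r * η * Real.log B) * Real.exp (4 * r * η * X))) ^ (r + 1) =
            (C4 * Real.exp (4 * r * η * Real.log B)) ^ (r + 1) *
              Real.exp ((r + 1) * (4 * r * η * X)) := by
          rw [← mul_assoc, mul_pow, ← Real.exp_nat_mul (4 * r * η * X)]
          push_cast
          ring
        have f4 : Real.exp (J2.card * X + μ * Z + η * (M * X + μ * Z - μ * X)) =
            Real.exp (μ * Z + η * (X + μ * Z)) * Real.exp (J2.card * X) *
              Real.exp ((r + 1) * (4 * r * η * X)) := by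
          rw [← Real.exp_add, ← Real.exp_add]
          congr 1
          rw [hM]
          ring
        rw [f1, f2, f3, f4]
        ring
    _ ≤ _ := by
        refine mul_le_mul_of_nonneg_left (Real.exp_le_exp.2 ?_) (by positivity)
        have i1 : η * M = ε := by rw [hη]; field_simp
        have i2 : μ ≤ M := by
          rw [hM]
          have : (0 : ℝ) ≤ 4 * r * (r + 1) := by positivity
          linarith
        have i3 : η * (M * X + μ * Z - μ * X) ≤ ε * (X + Z) := by
          rw [← i1]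
          have i4 : μ * Z ≤ M * Z := by gcongr
          have i5 : 0 ≤ μ * X := by positivity
          have : M * X + μ * Z - μ * X ≤ M * (X + Z) := by linarith
          nlinarith
        linarith

/-- **Counting the algebraic numbers of degree `r` with small height and small truncated counting
function.** -/
theorem form_count {q : ℕ} (S : Finset ℕ) (hS : ∀ p ∈ S, p.Prime) (a : Fin q → k)
    (ha : Function.Injective a) (r : ℕ) (hr : 1 ≤ r) (m : ℕ) (hm1 : 1 ≤ m) (hmq : m ≤ q)
    (hmr : m ≤ r + 1) {ε : ℝ} (hε : 0 < ε) :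
    ∃ C : ℝ, 0 < C ∧ ∀ X Z : ℝ, 0 ≤ X → 0 ≤ Z →
      {x : Om k | Module.finrank k k⟮x⟯ = r ∧ (∀ j, x ≠ algebraMap k (Om k) (a j)) ∧
        logHeight₁ (AdjoinSimple.gen k x) ≤ X ∧ cnt S a (AdjoinSimple.gen k x) ≤ Z}.Finite ∧
      ({x : Om k | Module.finrank k k⟮x⟯ = r ∧ (∀ j, x ≠ algebraMap k (Om k) (a j)) ∧
        logHeight₁ (AdjoinSimple.gen k x) ≤ X ∧
          cnt S a (AdjoinSimple.gen k x) ≤ Z}.ncard : ℝ) ≤
        C * Real.exp (((r : ℝ) + 1 - m) * X + m / q * Z + ε * (X + Z)) := by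
  obtain ⟨c, β, M, hc0, hβ, hM, hβinj, hgood⟩ := setup S hS a ha
  set d := Module.finrank ℚ k with hd
  have hd0 : 0 < d := Module.finrank_pos
  have hq0 : 0 < q := by omega
  have hqR : (0 : ℝ) < q := by exact_mod_cast hq0
  set pt : Fin q → 𝓞 k × 𝓞 k := fun j => (β j, c) with hpt
  have hptinj : Function.Injective pt := fun i j h => hβinj (congrArg Prod.fst h)
  set D : Finset (𝓞 k × 𝓞 k) := Finset.univ.image pt with hDdef
  have hmemD : ∀ j, pt j ∈ D := fun j => Finset.mem_image_of_mem _ (Finset.mem_univ j)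
  have hD0 : ∀ a ∈ D, a ≠ (0, 0) := by
    intro a ha h
    obtain ⟨j, -, rfl⟩ := Finset.mem_image.1 ha
    exact hc0 (congrArg Prod.snd h)
  have hDdet : ∀ a ∈ D, ∀ b ∈ D, a ≠ b → a.1 * b.2 ≠ a.2 * b.1 := by
    intro a ha b hb hab h
    obtain ⟨i, -, rfl⟩ := Finset.mem_image.1 ha
    obtain ⟨j, -, rfl⟩ := Finset.mem_image.1 hb
    apply hab
    have h1 : β i * c = c * β j := h
    rw [mul_comm c] at h1
    have h2 := mul_right_cancel₀ hc0 h1
    exact congrArg (fun t => (t, c)) h2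
  obtain ⟨E, hEc, hEdet, hDE, hE1⟩ := exists_aux D hD0 (r + 1 - m)
  -- constants
  set A : ℝ := 1 + ∑ a ∈ D ∪ E, ∑ v : InfinitePlace k, (v (a.1 : k) + v (a.2 : k)) with hAdef
  have hAnn : ∀ a : 𝓞 k × 𝓞 k, 0 ≤ ∑ v : InfinitePlace k, (v (a.1 : k) + v (a.2 : k)) :=
    fun a => Finset.sum_nonneg fun v _ => add_nonneg (apply_nonneg v _) (apply_nonneg v _)
  have hA : 1 ≤ A := by
    have := Finset.sum_nonneg (s := D ∪ E) fun a _ => hAnn a
    linarith
  have hDA : ∀ a ∈ D ∪ E, ∀ v : InfinitePlace k, v (a.1 : k) ≤ A ∧ v (a.2 : k) ≤ A := by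
    intro a ha v
    have h1 := Finset.single_le_sum
      (f := fun a : 𝓞 k × 𝓞 k => ∑ v : InfinitePlace k, (v (a.1 : k) + v (a.2 : k)))
      (fun a _ => hAnn a) ha
    have h2 := Finset.single_le_sum
      (f := fun v : InfinitePlace k => (v (a.1 : k) + v (a.2 : k)))
      (fun v _ => add_nonneg (apply_nonneg v _) (apply_nonneg v _)) (Finset.mem_univ v)
    have h3 : 0 ≤ v (a.1 : k) := apply_nonneg v _
    have h4 : 0 ≤ v (a.2 : k) := apply_nonneg v _
    constructor <;> linarith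
  set nL : ℕ := d * r with hnL
  set B : ℝ := (2 * A ^ 2) ^ nL with hB
  have hA2 : 1 ≤ A ^ 2 := one_le_pow₀ hA
  have hB1 : 1 ≤ B := one_le_pow₀ (by linarith)
  have hBB : (2 * A) ^ nL ≤ B := by
    refine pow_le_pow_left₀ (by linarith) ?_ _
    nlinarith
  set c0 : ℝ := Real.log B with hc0def
  have hc00 : 0 ≤ c0 := Real.log_nonneg hB1
  set μ : ℝ := m / q with hμ
  have hμ0 : 0 ≤ μ := by positivity
  set c1 : ℝ := μ * (q * (nL * Real.log M)) with hc1def
  have hM1 : (1 : ℝ) ≤ M := by exact_mod_cast Nat.one_le_iff_ne_zero.2 hM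
  have hc10 : 0 ≤ c1 := by
    have := Real.log_nonneg hM1
    positivity
  -- disjointness and determinants
  have hdE : Disjoint D E := by
    rw [Finset.disjoint_left]
    intro a ha hb
    exact hDE a ha a hb (mul_comm _ _)
  have hdet : ∀ J1 ⊆ D, ∀ a ∈ J1 ∪ E, ∀ b ∈ J1 ∪ E, a ≠ b → a.1 * b.2 ≠ a.2 * b.1 := by
    intro J1 h1 a ha b hb hab
    rcases Finset.mem_union.1 ha with ha | ha
    · rcases Finset.mem_union.1 hb with hb | hb
      · exact hDdet a (h1 ha) b (h1 hb) hab
      · exact hDE a (h1 ha) b hb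
    · rcases Finset.mem_union.1 hb with hb | hb
      · intro h
        refine hDE b (h1 hb) a ha ?_
        rw [mul_comm b.1, mul_comm b.2]
        exact h.symm
      · exact hEdet a ha b hb hab
  set I : Finset (Finset (Fin q)) := Finset.powersetCard m Finset.univ with hI
  have hJ1 : ∀ J : Finset (Fin q), J.image pt ⊆ D := fun J =>
    Finset.image_subset_image (Finset.subset_univ J)
  have hJcard : ∀ J ∈ I, (J.image pt).card + E.card = r + 1 := by
    intro J hJ
    rw [Finset.card_image_of_injective _ hptinj, (Finset.mem_powersetCard.1 hJ).2, hEc]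
    omega
  have hcount : ∀ J : Finset (Fin q), ∃ C : ℝ, 0 < C ∧ (J ∈ I → ∀ X Z : ℝ, 0 ≤ X → 0 ≤ Z →
      ({x : Om k | GoodR r (J.image pt) E (TT (J.image pt) (X + c0) (μ * Z + c1))
        (Real.exp (X + c0)) (((B * Real.exp X) ^ 2) ^ r) x}.ncard : ℝ) ≤
        C * Real.exp (E.card * X + μ * Z + ε * (X + Z))) := by
    intro J
    by_cases hJ : J ∈ I
    · obtain ⟨C, hC, h⟩ := goodR_exp r hr (J.image pt) E
        (Finset.disjoint_of_subset_left (hJ1 J) hdE) (hJcard J hJ) (hdet _ (hJ1 J))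
        c0 c1 B μ hc00 hc10 hB1 hμ0 hε
      exact ⟨C, hC, fun _ => h⟩
    · exact ⟨1, one_pos, fun h => absurd h hJ⟩
  choose Cf hCf hCb using hcount
  set V0 : Set (Om k) := {x : Om k | ∃ b ∈ E,
      algebraMap k (Om k) (b.1 : k) = algebraMap k (Om k) (b.2 : k) * x} with hV0
  have hV0f : V0.Finite := by
    have : V0 = ⋃ b ∈ E, {x : Om k |
      algebraMap k (Om k) (b.1 : k) = algebraMap k (Om k) (b.2 : k) * x} := by
      ext x; simp [hV0]
    rw [this]
    refine Set.Finite.biUnion E.finite_toSet fun b hb => Set.Subsingleton.finite ?_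
    intro x hx x' hx'
    have h1 : algebraMap k (Om k) (b.1 : k) = algebraMap k (Om k) (b.2 : k) * x := hx
    have h2 : algebraMap k (Om k) (b.1 : k) = algebraMap k (Om k) (b.2 : k) * x' := hx'
    have hb1 : algebraMap k (Om k) (b.1 : k) = 1 := by
      rw [hE1 b hb]
      have : ((1 : 𝓞 k) : k) = 1 := rfl
      rw [this, map_one]
    have hne : algebraMap k (Om k) (b.2 : k) ≠ 0 := by
      intro h
      rw [h, zero_mul, hb1] at h1
      exact one_ne_zero h1
    exact mul_left_cancel₀ hne (h1.symm.trans h2)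
  set N0 : ℝ := (V0.ncard : ℝ) with hN0
  have hN00 : 0 ≤ N0 := Nat.cast_nonneg _
  refine ⟨N0 + ∑ J ∈ I, Cf J + 1, ?_, fun X Z hX hZ => ?_⟩
  · have : 0 ≤ ∑ J ∈ I, Cf J := Finset.sum_nonneg fun J _ => (hCf J).le
    linarith
  set Bad : Set (Om k) := {x : Om k | Module.finrank k k⟮x⟯ = r ∧
      (∀ j, x ≠ algebraMap k (Om k) (a j)) ∧
        logHeight₁ (AdjoinSimple.gen k x) ≤ X ∧ cnt S a (AdjoinSimple.gen k x) ≤ Z} with hBad
  have hsub : Bad ⊆ V0 ∪ ⋃ J ∈ I, {x : Om k | GoodR r (J.image pt) E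
      (TT (J.image pt) (X + c0) (μ * Z + c1)) (Real.exp (X + c0))
      (((B * Real.exp X) ^ 2) ^ r) x} := by
    rintro x ⟨hdeg, hne, hht, hcnt⟩
    by_cases hxE : ∃ b ∈ E, algebraMap k (Om k) (b.1 : k) = algebraMap k (Om k) (b.2 : k) * x
    · exact Or.inl hxE
    right
    have hxint : IsIntegral k x := Algebra.IsIntegral.isIntegral x
    set pb := adjoin.powerBasis hxint with hpb
    have hgen : pb.gen = AdjoinSimple.gen k x := adjoin.powerBasis_gen hxint
    have hmin : minpoly k pb.gen = minpoly k x := by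
      rw [hgen]; exact IntermediateField.minpoly_gen k x
    have hmdeg : (minpoly k x).natDegree = r := by rw [← hdeg, adjoin.finrank hxint]
    have hfrQ : Module.finrank ℚ k⟮x⟯ = nL := by
      rw [hnL, ← hdeg, hd, Module.finrank_mul_finrank]
    set H := mulHeight₁ pb.gen with hH
    have hH1 : 1 ≤ H := one_le_mulHeight₁ _
    have hHpos : 0 < H := by linarith
    have hHX : H ≤ Real.exp X := by
      rw [← Real.log_le_iff_le_exp hHpos, hH, hgen, ← logHeight₁_eq_log_mulHeight₁]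
      exact hht
    have hckne : ∀ a : 𝓞 k × 𝓞 k,
        algebraMap k (Om k) (a.1 : k) ≠ algebraMap k (Om k) (a.2 : k) * x → ck a pb.gen ≠ 0 := by
      intro a hane h
      apply hane
      have h1 : algebraMap k⟮x⟯ (Om k) (ck a pb.gen) = 0 := by rw [h, map_zero]
      unfold ck at h1
      rw [map_sub, map_mul, hgen, AdjoinSimple.algebraMap_gen,
        ← IsScalarTower.algebraMap_apply, ← IsScalarTower.algebraMap_apply] at h1
      exact sub_eq_zero.1 h1
    have hcK : (c : k) ≠ 0 := coe_ne _ hc0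
    have hckD : ∀ j, ck (pt j) pb.gen ≠ 0 := by
      intro j
      refine hckne _ fun h => hne j ?_
      have h1 : algebraMap k (Om k) (β j : k) = algebraMap k (Om k) (c : k) * x := h
      rw [hβ, map_mul] at h1
      have h2 : algebraMap k (Om k) (c : k) ≠ 0 := (map_ne_zero _).2 hcK
      exact (mul_left_cancel₀ h2 h1).symm
    have hckE : ∀ a ∈ E, ck a pb.gen ≠ 0 := fun a ha => hckne a fun h => hxE ⟨a, ha, h⟩
    obtain ⟨l, n, z, mm, hl, hn, hz⟩ := data_r pb A hA
    rw [hmin, hdeg, hfrQ] at hz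
    -- the radicals
    have hygen : ∀ j, pb.gen ≠ algebraMap k k⟮x⟯ (a j) := by
      intro j h
      apply hne j
      have h1 := congrArg (algebraMap k⟮x⟯ (Om k)) h
      rw [hgen, AdjoinSimple.algebraMap_gen, ← IsScalarTower.algebraMap_apply] at h1
      exact h1
    have hrad := rad_sum S a c β M hβ hM (hgood k⟮x⟯) pb.gen hygen (fun j => mm (pt j))
      (fun j => (hz _ (hckD j)).2.2.2.1)
      (fun j v hv => (hz _ (hckD j)).2.2.2.2.2 v hv)
    rw [hfrQ] at hrad
    have hcnt' : cnt S a pb.gen ≤ Z := by rw [hgen]; exact hcnt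
    obtain ⟨J, -, hJm, hJs⟩ := small_subset (Finset.univ : Finset (Fin q))
      (fun j => rl (mm (pt j))) m hm1 (by rw [Finset.card_univ, Fintype.card_fin]; exact hmq)
    rw [Finset.card_univ, Fintype.card_fin] at hJs
    have hJI : J ∈ I := Finset.mem_powersetCard.2 ⟨Finset.subset_univ _, hJm⟩
    have hJle : ∑ j ∈ J, rl (mm (pt j)) ≤ μ * Z + c1 := by
      have h1 : (q : ℝ) * ∑ j ∈ J, rl (mm (pt j)) ≤ m * (Z + q * (nL * Real.log M)) := by
        refine hJs.trans ?_
        refine mul_le_mul_of_nonneg_left ?_ (Nat.cast_nonneg _)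
        linarith
      have h2 : (q : ℝ) * (μ * Z + c1) = m * (Z + q * (nL * Real.log M)) := by
        rw [hc1def, hμ]
        field_simp
      rw [← h2] at h1
      exact le_of_mul_le_mul_left h1 hqR
    have hnorm : ∀ b ∈ D ∪ E, ck b pb.gen ≠ 0 → mm b ∈ idF k (Real.exp (X + c0)) := by
      intro b hb hb0
      rw [mem_idF]
      obtain ⟨-, -, -, g4, g5, -⟩ := hz b hb0
      refine ⟨g4, (g5 (hDA b hb)).trans ?_⟩
      rw [Real.exp_add, hc0def, Real.exp_log (by linarith), mul_comm (Real.exp X)]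
      exact mul_le_mul hBB hHX (by positivity) (by linarith)
    refine Set.mem_biUnion hJI ?_
    refine ⟨hmdeg, l, n, z, mm, hl, hn, ?_, ?_, ?_, ?_⟩
    · intro b hb
      have hb0 : ck b pb.gen ≠ 0 := by
        rcases Finset.mem_union.1 hb with h | h
        · obtain ⟨j, -, rfl⟩ := Finset.mem_image.1 h
          exact hckD j
        · exact hckE b h
      obtain ⟨g1, g2, g3, -⟩ := hz b hb0
      exact ⟨g1, g2, g3⟩
    · unfold TT
      rw [Finset.mem_filter, Fintype.mem_piFinset]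
      constructor
      · rintro ⟨b, hb⟩
        obtain ⟨j, -, rfl⟩ := Finset.mem_image.1 hb
        exact hnorm _ (Finset.mem_union_left _ (hmemD j)) (hckD j)
      · refine le_trans (le_of_eq ?_) hJle
        have h1 : ∑ i : (J.image pt : Finset _), rl (mm i) = ∑ b ∈ J.image pt, rl (mm b) :=
          Finset.sum_coe_sort (J.image pt) (fun b => rl (mm b))
        refine h1.trans ?_
        rw [Finset.sum_image]
        intro i _ j _ hij
        exact hptinj hij
    · intro b hb
      exact hnorm b (Finset.mem_union_right _ hb) (hckE b hb)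
    · intro b hb b' hb' v
      have hbD : b ∈ D ∪ E := Finset.union_subset_union (hJ1 J) le_rfl hb
      have hbD' : b' ∈ D ∪ E := Finset.union_subset_union (hJ1 J) le_rfl hb'
      have := ratio_k pb A hA b b' (hDA b hbD) (hDA b' hbD') v
      rw [hmin, hdeg, hfrQ] at this
      refine this.trans ?_
      gcongr
  have hfinJ : ∀ J ∈ I, {x : Om k | GoodR r (J.image pt) E
      (TT (J.image pt) (X + c0) (μ * Z + c1)) (Real.exp (X + c0))
      (((B * Real.exp X) ^ 2) ^ r) x}.Finite := by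
    intro J hJ
    exact (goodR_count r hr (J.image pt) E
        (Finset.disjoint_of_subset_left (hJ1 J) hdE) (hJcard J hJ) (hdet _ (hJ1 J)) _ _ _).1
  have hfinU : (⋃ J ∈ I, {x : Om k | GoodR r (J.image pt) E
      (TT (J.image pt) (X + c0) (μ * Z + c1)) (Real.exp (X + c0))
      (((B * Real.exp X) ^ 2) ^ r) x}).Finite :=
    Set.Finite.biUnion I.finite_toSet hfinJ
  refine ⟨(hV0f.union hfinU).subset hsub, ?_⟩
  have hunion : ((⋃ J ∈ I, {x : Om k | GoodR r (J.image pt) E
      (TT (J.image pt) (X + c0) (μ * Z + c1)) (Real.exp (X + c0))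
      (((B * Real.exp X) ^ 2) ^ r) x}).ncard : ℝ)
      ≤ ∑ J ∈ I, ({x : Om k | GoodR r (J.image pt) E
      (TT (J.image pt) (X + c0) (μ * Z + c1)) (Real.exp (X + c0))
      (((B * Real.exp X) ^ 2) ^ r) x}.ncard : ℝ) := by
    have : (⋃ J ∈ I, {x : Om k | GoodR r (J.image pt) E
      (TT (J.image pt) (X + c0) (μ * Z + c1)) (Real.exp (X + c0))
      (((B * Real.exp X) ^ 2) ^ r) x}).ncard
        ≤ ∑ J ∈ I, {x : Om k | GoodR r (J.image pt) E
      (TT (J.image pt) (X + c0) (μ * Z + c1)) (Real.exp (X + c0))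
      (((B * Real.exp X) ^ 2) ^ r) x}.ncard := by
      clear_value I
      clear hsub hfinU hI hCb hJcard
      induction I using Finset.induction_on with
      | empty => simp
      | insert J I' hJ ih =>
        rw [Finset.sum_insert hJ, Finset.set_biUnion_insert]
        refine (Set.ncard_union_le _ _).trans ?_
        exact Nat.add_le_add_left (ih fun J hJ => hfinJ J (Finset.mem_insert_of_mem hJ)) _
    exact_mod_cast this
  have hEcR : (E.card : ℝ) = (r : ℝ) + 1 - m := by
    rw [hEc, Nat.cast_sub hmr]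
    push_cast
    ring
  set W : ℝ := Real.exp (((r : ℝ) + 1 - m) * X + m / q * Z + ε * (X + Z)) with hW
  have hW1 : 1 ≤ W := by
    refine Real.one_le_exp ?_
    have : (0 : ℝ) ≤ (r : ℝ) + 1 - m := by rw [← hEcR]; exact Nat.cast_nonneg _
    positivity
  calc (Bad.ncard : ℝ)
      ≤ ((V0 ∪ ⋃ J ∈ I, {x : Om k | GoodR r (J.image pt) E
      (TT (J.image pt) (X + c0) (μ * Z + c1)) (Real.exp (X + c0))
      (((B * Real.exp X) ^ 2) ^ r) x}).ncard : ℝ) := by
        exact_mod_cast Set.ncard_le_ncard hsub (hV0f.union hfinU)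
    _ ≤ N0 + ((⋃ J ∈ I, {x : Om k | GoodR r (J.image pt) E
      (TT (J.image pt) (X + c0) (μ * Z + c1)) (Real.exp (X + c0))
      (((B * Real.exp X) ^ 2) ^ r) x}).ncard : ℝ) := by
        rw [hN0]
        exact_mod_cast Set.ncard_union_le _ _
    _ ≤ N0 + ∑ J ∈ I, Cf J * W := by
        have h1 := hunion.trans (Finset.sum_le_sum fun J hJ => hCb J hJ X Z hX hZ)
        rw [hEcR] at h1
        linarith
    _ = N0 + (∑ J ∈ I, Cf J) * W := by rw [Finset.sum_mul]
    _ ≤ N0 * W + (∑ J ∈ I, Cf J) * W + 1 * W := by nlinarith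
    _ = (N0 + ∑ J ∈ I, Cf J + 1) * W := by ring

end Pool.Agent.Y729.RV
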