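import Mathlib
import Pool.Agent.Y729.RV.PF
import Pool.Agent.Y729.RV.Cnt
import Pool.Agent.Y729.AE.PerField

/-!
# Summing over the fields of given degree
-/

set_option autoImplicit false

namespace Pool.Agent.Y729.RV

open NumberField IsDedekindDomain Module Height IntermediateField
open H645.VK (Om instNF instFD)
open Pool.Agent.W301.Lin (FS)
open Pool.Agent.W222.UABC (exp_sum)
open Pool.Agent.Y729.AE (dL dL_eq dL_nonneg count_dL)

open scoped Classical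

variable {K : Type} [Field K] [NumberField K] {q : ℕ}

/-- the points of degree `r` with small truncated counting function plus discriminant -/
def Ex (S : Finset ℕ) (a : Fin q → K) (r : ℕ) (X Y : ℝ) : Set (Om K) :=
  {x | finrank K K⟮x⟯ = r ∧ (∀ j, x ≠ algebraMap K (Om K) (a j)) ∧
    logHeight₁ (AdjoinSimple.gen K x) ≤ X ∧
    cnt S a (AdjoinSimple.gen K x) + Real.log |(discr K⟮x⟯ : ℝ)| ≤ Y}

theorem dL_gen (x : Om K) : dL K⟮x⟯ = Real.log |(discr K⟮x⟯ : ℝ)| := dL_eq _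

theorem transport (S : Finset ℕ) (a : Fin q → K) (x : Om K) (F : IntermediateField K (Om K))
    (h : K⟮x⟯ = F) [NumberField F] (hx : x ∈ F) :
    logHeight₁ (⟨x, hx⟩ : F) = logHeight₁ (AdjoinSimple.gen K x) ∧
      cnt S a (⟨x, hx⟩ : F) = cnt S a (AdjoinSimple.gen K x) := by
  subst h
  exact ⟨rfl, rfl⟩

theorem ex_fin (S : Finset ℕ) (hS : ∀ p ∈ S, p.Prime) (a : Fin q → K)
    (ha : Function.Injective a) (hq : 1 ≤ q) (r : ℕ) (hr : 1 ≤ r) (X Y : ℝ) (hX : 0 ≤ X)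
    (hY : 0 ≤ Y) : (Ex S a r X Y).Finite := by
  obtain ⟨C, -, h⟩ := form_count S hS a ha r hr 1 le_rfl hq (by omega) (ε := 1) one_pos
  refine (h X Y hX hY).1.subset ?_
  rintro x ⟨h1, h2, h3, h4⟩
  refine ⟨h1, h2, h3, ?_⟩
  have := dL_nonneg (K⟮x⟯)
  rw [dL_gen] at this
  linarith

theorem sum_count (S : Finset ℕ) (hS : ∀ p ∈ S, p.Prime) (a : Fin q → K)
    (ha : Function.Injective a) (hq : 2 ≤ q) (r : ℕ) (hr : 1 ≤ r) (e : ℝ) (he : 0 ≤ e) (C : ℝ)
    (hC : 0 < C)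
    (hF : ∀ X : ℝ, 1 ≤ X → (FS K r X).Finite ∧ ((FS K r X).ncard : ℝ) ≤ C * X ^ e)
    {ε : ℝ} (hε : 0 < ε) :
    ∃ D : ℝ, 0 < D ∧ ∀ X Y s : ℝ, 0 ≤ X → 0 ≤ Y → 0 ≤ s → s ≤ Y →
      ({x ∈ Ex S a r X Y | Real.log |(discr K⟮x⟯ : ℝ)| ≤ s}.ncard : ℝ) ≤
        D * (s + 1) * Real.exp (2 / q * Y + max (e - 2 / q) 0 * s + ε * (X + Y)) := by
  obtain ⟨D, hD, hpf⟩ := per_field hq S hS a ha (finrank ℚ K * r) hε
  refine ⟨D * (C * Real.exp e), by positivity, ?_⟩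
  intro X Y s hX hY hs hsY
  have hfin : {x ∈ Ex S a r X Y | Real.log |(discr K⟮x⟯ : ℝ)| ≤ s}.Finite :=
    (ex_fin S hS a ha (by omega) r hr X Y hX hY).subset fun x hx => hx.1
  set E : Finset (Om K) := hfin.toFinset with hEdef
  have hEm : ∀ x ∈ E, x ∈ Ex S a r X Y ∧ Real.log |(discr K⟮x⟯ : ℝ)| ≤ s := by
    intro x hx
    rw [hEdef, Set.Finite.mem_toFinset] at hx
    exact hx
  rw [Set.ncard_eq_toFinset_card _ hfin, ← hEdef]
  set F : Finset (IntermediateField K (Om K)) := E.image (fun x => K⟮x⟯) with hFd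
  have hcard : (E.card : ℝ) = ∑ L ∈ F, ((E.filter fun x => K⟮x⟯ = L).card : ℝ) := by
    rw [Finset.card_eq_sum_card_image (fun x => K⟮x⟯) E]
    push_cast
    rfl
  have hone : ∀ L ∈ F, ((E.filter fun x => K⟮x⟯ = L).card : ℝ) ≤
      D * Real.exp (2 / q * Y + ε * (X + Y)) * Real.exp (-(2 / q * dL L)) := by
    intro L hL
    obtain ⟨x0, hx0, rfl⟩ := Finset.mem_image.1 hL
    set f : Om K → K⟮x0⟯ := fun y => if h : y ∈ K⟮x0⟯ then ⟨y, h⟩ else 0 with hf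
    set G := E.filter fun x => K⟮x⟯ = K⟮x0⟯ with hG
    have hGm : ∀ x ∈ G, x ∈ E ∧ K⟮x⟯ = K⟮x0⟯ := fun p hp => Finset.mem_filter.1 hp
    have hmem : ∀ x ∈ G, x ∈ K⟮x0⟯ := fun x hx => by
      rw [← (hGm x hx).2]
      exact mem_adjoin_simple_self K x
    have hfx : ∀ x (hx : x ∈ G), f x = ⟨x, hmem x hx⟩ := fun x hx => dif_pos (hmem x hx)
    have hinj : Set.InjOn f (G : Set _) := by
      intro x hx y hy hxy
      rw [hfx x hx, hfx y hy] at hxy
      exact congrArg Subtype.val hxy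
    rw [← Finset.card_image_of_injOn hinj]
    obtain ⟨⟨hdeg0, -, -, hY0⟩, hs0⟩ := hEm x0 hx0
    have hdeg : finrank ℚ K⟮x0⟯ = finrank ℚ K * r := by
      rw [← finrank_mul_finrank ℚ K K⟮x0⟯, hdeg0]
    have hcn := cnt_nonneg S a (AdjoinSimple.gen K x0)
    have hd0 : 0 ≤ dL K⟮x0⟯ := dL_nonneg _
    have hZ : 0 ≤ Y - dL K⟮x0⟯ := by
      rw [dL_gen]
      linarith
    refine (hpf K⟮x0⟯ hdeg X (Y - dL K⟮x0⟯) hX hZ _ ?_).trans ?_
    · intro y hy
      obtain ⟨x, hx, rfl⟩ := Finset.mem_image.1 hy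
      obtain ⟨hxE, hxx⟩ := hGm x hx
      obtain ⟨⟨g1, g2, g3, g4⟩, g5⟩ := hEm x hxE
      rw [hfx x hx]
      obtain ⟨t1, t2⟩ := transport S a x K⟮x0⟯ hxx (hmem x hx)
      refine ⟨?_, ?_, ?_⟩
      · intro j h
        apply g2 j
        have := congrArg (algebraMap K⟮x0⟯ (Om K)) h
        rw [← IsScalarTower.algebraMap_apply] at this
        exact this
      · rw [t1]
        exact g3
      · rw [t2, ← hxx, dL_gen]
        linarith
    · rw [mul_assoc, ← Real.exp_add]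
      refine mul_le_mul_of_nonneg_left (Real.exp_le_exp.2 ?_) hD.le
      have : ε * (X + (Y - dL K⟮x0⟯)) ≤ ε * (X + Y) := by
        refine mul_le_mul_of_nonneg_left ?_ hε.le
        linarith
      have e1 : 2 / (q : ℝ) * (Y - dL K⟮x0⟯) = 2 / q * Y - 2 / q * dL K⟮x0⟯ := by ring
      rw [e1]
      linarith
  have hd1 : ∀ L ∈ F, dL L ≤ s := by
    intro L hL
    obtain ⟨x0, hx0, rfl⟩ := Finset.mem_image.1 hL
    rw [dL_gen]
    exact (hEm x0 hx0).2
  have hFg : ∀ L ∈ F, FiniteDimensional K L ∧ finrank K L = r := by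
    intro L hL
    obtain ⟨x0, hx0, rfl⟩ := Finset.mem_image.1 hL
    exact ⟨instFD x0, (hEm x0 hx0).1.1⟩
  have hsum := exp_sum F dL C e (2 / q) s hC.le he (by positivity) hs
    (fun L _ => dL_nonneg L) hd1 (fun s hs => count_dL r C e hF F hFg s hs)
  calc (E.card : ℝ) = ∑ L ∈ F, ((E.filter fun x => K⟮x⟯ = L).card : ℝ) := hcard
    _ ≤ ∑ L ∈ F, D * Real.exp (2 / q * Y + ε * (X + Y)) * Real.exp (-(2 / q * dL L)) :=
        Finset.sum_le_sum hone
    _ = D * Real.exp (2 / q * Y + ε * (X + Y)) * ∑ L ∈ F, Real.exp (-(2 / q * dL L)) := by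
        rw [Finset.mul_sum]
    _ ≤ D * Real.exp (2 / q * Y + ε * (X + Y)) *
          (C * Real.exp e * (s + 1) * Real.exp (max (e - 2 / q) 0 * s)) :=
        mul_le_mul_of_nonneg_left hsum (by positivity)
    _ = D * (C * Real.exp e) * (s + 1) *
          (Real.exp (2 / q * Y + ε * (X + Y)) * Real.exp (max (e - 2 / q) 0 * s)) := by ring
    _ = _ := by
        rw [← Real.exp_add]
        congr 2
        ring

end Pool.Agent.Y729.RV
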