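import Mathlib
import Pool.Agent.Y729.RV.Sum

/-!
# The number of exceptional points of given relative degree
-/

set_option autoImplicit false

namespace Pool.Agent.Y729.RV

open NumberField IsDedekindDomain Module Height IntermediateField
open H645.VK (Om instNF instFD)
open Pool.Agent.W301.Lin (FS)

open scoped Classical

variable {K : Type} [Field K] [NumberField K] {q : ℕ}

/-- the exponent -/
noncomputable def xp (α : ℝ) (r q : ℕ) (κ : ℝ) : ℝ :=
  min (α * (q - κ)) (((q * α - 2) * (r + 1 - (min q (r + 1) : ℕ)) +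
    (min q (r + 1) : ℕ) * α * (q - κ)) / (q * α + (min q (r + 1) : ℕ) - 2))

/-- the exceptional set over the field of `x` -/
def Vx (S : Finset ℕ) (a : Fin q → K) (r : ℕ) (κ C1 X : ℝ) : Set (Om K) :=
  {x | finrank K K⟮x⟯ = r ∧ (∀ j, x ≠ algebraMap K (Om K) (a j)) ∧
    logHeight₁ (AdjoinSimple.gen K x) ≤ X ∧
    cnt S a (AdjoinSimple.gen K x) + Real.log |(discr K⟮x⟯ : ℝ)| ≤
      (q - κ) * logHeight₁ (AdjoinSimple.gen K x) + C1}

theorem vx_sub (S : Finset ℕ) (a : Fin q → K) (r : ℕ) (κ C1 X : ℝ) (hκ : κ ≤ q) :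
    Vx S a r κ C1 X ⊆ Ex S a r X ((q - κ) * X + max C1 0) := by
  rintro x ⟨h1, h2, h3, h4⟩
  refine ⟨h1, h2, h3, h4.trans ?_⟩
  have h5 : (q - κ) * logHeight₁ (AdjoinSimple.gen K x) ≤ (q - κ) * X :=
    mul_le_mul_of_nonneg_left h3 (by linarith)
  have := le_max_left C1 0
  linarith

theorem xp_aux {α : ℝ} {r q : ℕ} (hr : 1 ≤ r) (hq : 3 ≤ q) (hα : 2 / (q : ℝ) ≤ α) :
    (2 : ℝ) ≤ (min q (r + 1) : ℕ) ∧ ((min q (r + 1) : ℕ) : ℝ) ≤ r + 1 ∧
      0 ≤ (q : ℝ) * α - 2 ∧ 0 < (q : ℝ) * α + (min q (r + 1) : ℕ) - 2 := by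
  have hq0 : (0 : ℝ) < q := by exact_mod_cast (show 0 < q by omega)
  have h1 : 2 ≤ min q (r + 1) := by omega
  have h2 : min q (r + 1) ≤ r + 1 := min_le_right _ _
  have h3 : (2 : ℝ) ≤ (min q (r + 1) : ℕ) := by exact_mod_cast h1
  have h4 : ((min q (r + 1) : ℕ) : ℝ) ≤ r + 1 := by exact_mod_cast h2
  have h5 : 0 ≤ (q : ℝ) * α - 2 := by
    rw [div_le_iff₀ hq0] at hα
    linarith
  exact ⟨h3, h4, h5, by linarith⟩

theorem absorb {P c D0 X s η : ℝ} (hP : 0 ≤ P) (hc : 0 ≤ c) (hD0 : 0 ≤ D0) (hX : 0 ≤ X)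
    (hs : s ≤ P * X + c) (hη : 0 < η) :
    D0 * (s + 1) ≤ (D0 * (P * (1 / η) + c + 1)) * Real.exp (η * X) := by
  have h1 : 1 + η * X ≤ Real.exp (η * X) := by
    have := Real.add_one_le_exp (η * X)
    linarith
  have h2 : X ≤ 1 / η * Real.exp (η * X) := by
    have h3 : η * X ≤ Real.exp (η * X) := by linarith
    calc X = 1 / η * (η * X) := by field_simp
      _ ≤ _ := mul_le_mul_of_nonneg_left h3 (by positivity)
  have h4 : 1 ≤ Real.exp (η * X) := Real.one_le_exp (by positivity)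
  have h5 : P * X ≤ P * (1 / η * Real.exp (η * X)) := mul_le_mul_of_nonneg_left h2 hP
  have h6 : c + 1 ≤ (c + 1) * Real.exp (η * X) := le_mul_of_one_le_right (by linarith) h4
  calc D0 * (s + 1) ≤ D0 * ((P * (1 / η) + c + 1) * Real.exp (η * X)) :=
        mul_le_mul_of_nonneg_left (by linarith) hD0
    _ = _ := by ring

/-- **The number of exceptional points.** -/
theorem comb (S : Finset ℕ) (hS : ∀ p ∈ S, p.Prime) (a : Fin q → K)
    (ha : Function.Injective a) (hq : 3 ≤ q) (r : ℕ) (hr : 1 ≤ r) (e : ℝ) (he : 0 ≤ e) (C : ℝ)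
    (hC : 0 < C)
    (hF : ∀ X : ℝ, 1 ≤ X → (FS K r X).Finite ∧ ((FS K r X).ncard : ℝ) ≤ C * X ^ e)
    (α : ℝ) (hα : e ≤ α) (hα2 : 2 / (q : ℝ) ≤ α) (κ C1 : ℝ) (hκ : κ ≤ q) {δ : ℝ} (hδ : 0 < δ) :
    ∃ D : ℝ, 0 < D ∧ ∀ X : ℝ, 0 ≤ X → (Vx S a r κ C1 X).Finite ∧
      ((Vx S a r κ C1 X).ncard : ℝ) ≤ D * Real.exp ((xp α r q κ + δ) * X) := by
  obtain ⟨hm2, hmr, hqα, hden⟩ := xp_aux hr hq hα2
  have hq0 : (0 : ℝ) < q := by exact_mod_cast (show 0 < q by omega)
  set m : ℕ := min q (r + 1) with hm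
  set P : ℝ := q - κ with hP
  have hP0 : 0 ≤ P := by rw [hP]; linarith
  set c1 : ℝ := max C1 0 with hc1
  have hc10 : 0 ≤ c1 := le_max_right _ _
  set σ : ℝ := (q * (r + 1 - m) + (m - 2) * P) / (q * α + m - 2) with hσ
  have hσ0 : 0 ≤ σ := by
    refine div_nonneg (add_nonneg (mul_nonneg hq0.le (by linarith)) (mul_nonneg (by linarith) hP0))
      hden.le
  set x2 : ℝ := ((q * α - 2) * (r + 1 - m) + m * α * P) / (q * α + m - 2) with hx2
  have hI1 : 2 / q * P + (α - 2 / q) * σ = x2 := by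
    rw [hσ, hx2]
    have := hden.ne'
    field_simp
    ring
  have hI2 : (r + 1 - m) + m / q * (P - σ) = x2 := by
    rw [hσ, hx2]
    have := hden.ne'
    field_simp
    ring
  have hα2' : 0 ≤ α - 2 / q := by linarith
  have hmaxe : max (e - 2 / q) 0 ≤ α - 2 / q := max_le (by linarith) hα2'
  set ε : ℝ := δ / (2 * (1 + P)) with hε
  have hε0 : 0 < ε := by positivity
  have hεP : ε * (1 + P) = δ / 2 := by rw [hε]; field_simp
  obtain ⟨D, hD, hsum⟩ := sum_count S hS a ha (by omega) r hr e he C hC hF hε0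
  have hfinV : ∀ X : ℝ, 0 ≤ X → (Vx S a r κ C1 X).Finite := by
    intro X hX
    have hY : 0 ≤ P * X + c1 := by positivity
    exact (ex_fin S hS a ha (by omega) r hr X _ hX hY).subset (vx_sub S a r κ C1 X hκ)
  have hxp : xp α r q κ = min (α * P) x2 := rfl
  rcases le_or_gt σ P with hle | hgt
  · -- splitting
    have hmin : xp α r q κ = x2 := by
      rw [hxp]
      refine min_eq_right ?_
      rw [← hI1]
      have : (α - 2 / q) * σ ≤ (α - 2 / q) * P := mul_le_mul_of_nonneg_left hle hα2'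
      linarith
    obtain ⟨D2, hD2, hform⟩ := form_count S hS a ha r hr m (by omega) (min_le_left _ _)
      (min_le_right _ _) hε0
    refine ⟨(D * (P * (1 / (δ / 2)) + c1 + 1)) * Real.exp (2 / q * c1 + ε * c1) +
      D2 * Real.exp (m / q * c1 + ε * c1), by positivity, ?_⟩
    intro X hX
    refine ⟨hfinV X hX, ?_⟩
    have hσX : σ * X ≤ P * X := mul_le_mul_of_nonneg_right hle hX
    have hσX0 : 0 ≤ σ * X := mul_nonneg hσ0 hX
    set Y : ℝ := P * X + c1 with hY
    have hY0 : 0 ≤ Y := by positivity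
    have hs1 := hsum X Y (σ * X) hX hY0 hσX0 (by linarith)
    obtain ⟨hf1, hf2⟩ := hform X (Y - σ * X) hX (by linarith)
    set V1 : Set (Om K) := {x ∈ Ex S a r X Y | Real.log |(discr K⟮x⟯ : ℝ)| ≤ σ * X} with hV1
    set V2 : Set (Om K) := {x : Om K | Module.finrank K K⟮x⟯ = r ∧
      (∀ j, x ≠ algebraMap K (Om K) (a j)) ∧
        logHeight₁ (AdjoinSimple.gen K x) ≤ X ∧
          cnt S a (AdjoinSimple.gen K x) ≤ Y - σ * X} with hV2
    have hV1f : V1.Finite :=
      (ex_fin S hS a ha (by omega) r hr X Y hX hY0).subset fun x hx => hx.1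
    have hsub : Vx S a r κ C1 X ⊆ V1 ∪ V2 := by
      intro x hx
      have h1 := vx_sub S a r κ C1 X hκ hx
      rcases le_or_gt (Real.log |(discr K⟮x⟯ : ℝ)|) (σ * X) with h2 | h2
      · exact Or.inl ⟨h1, h2⟩
      · refine Or.inr ⟨h1.1, h1.2.1, h1.2.2.1, ?_⟩
        have h3 := h1.2.2.2
        have h4 : (q - κ) * X + max C1 0 = Y := rfl
        rw [h4] at h3
        linarith
    have hn : ((Vx S a r κ C1 X).ncard : ℝ) ≤ (V1.ncard : ℝ) + V2.ncard := by
      have h1 := (Set.ncard_le_ncard hsub (hV1f.union hf1)).trans (Set.ncard_union_le _ _)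
      exact_mod_cast h1
    have hb1 : (V1.ncard : ℝ) ≤ (D * (P * (1 / (δ / 2)) + c1 + 1)) *
        Real.exp (2 / q * c1 + ε * c1) * Real.exp ((x2 + δ) * X) := by
      refine hs1.trans ?_
      have h1 := absorb (s := σ * X) hP0 hc10 hD.le hX (by linarith) (half_pos hδ)
      have h2 : 2 / q * Y + max (e - 2 / q) 0 * (σ * X) + ε * (X + Y) ≤
          (x2 + δ / 2) * X + (2 / q * c1 + ε * c1) := by
        have h3 : max (e - 2 / q) 0 * (σ * X) ≤ (α - 2 / q) * (σ * X) :=
          mul_le_mul_of_nonneg_right hmaxe hσX0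
        have h4 : 2 / q * Y + (α - 2 / q) * (σ * X) + ε * (X + Y) =
            (2 / q * P + (α - 2 / q) * σ) * X + ε * (1 + P) * X + (2 / q * c1 + ε * c1) := by
          rw [hY]; ring
        rw [hI1, hεP] at h4
        linarith
      calc D * (σ * X + 1) * Real.exp (2 / q * Y + max (e - 2 / q) 0 * (σ * X) + ε * (X + Y))
          ≤ ((D * (P * (1 / (δ / 2)) + c1 + 1)) * Real.exp (δ / 2 * X)) *
            Real.exp ((x2 + δ / 2) * X + (2 / q * c1 + ε * c1)) :=
            mul_le_mul h1 (Real.exp_le_exp.2 h2) (Real.exp_pos _).le (by positivity)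
        _ = _ := by
            have h5 : Real.exp ((x2 + δ) * X) = Real.exp (δ / 2 * X) *
                Real.exp ((x2 + δ / 2) * X) := by
              rw [← Real.exp_add]; congr 1; ring
            rw [Real.exp_add, h5]
            ring
    have hb2 : (V2.ncard : ℝ) ≤ D2 * Real.exp (m / q * c1 + ε * c1) *
        Real.exp ((x2 + δ) * X) := by
      refine hf2.trans ?_
      rw [mul_assoc, ← Real.exp_add]
      refine mul_le_mul_of_nonneg_left (Real.exp_le_exp.2 ?_) hD2.le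
      have h4 : ((r : ℝ) + 1 - m) * X + m / q * (Y - σ * X) + ε * (X + Y) =
          ((r + 1 - m) + m / q * (P - σ)) * X + ε * (1 + P) * X + (m / q * c1 + ε * c1) := by
        rw [hY]; ring
      rw [hI2, hεP] at h4
      have h5 : ε * (X + (Y - σ * X)) ≤ ε * (X + Y) :=
        mul_le_mul_of_nonneg_left (by linarith) hε0.le
      have h6 : 0 ≤ δ / 2 * X := by positivity
      linarith
    rw [hmin]
    calc ((Vx S a r κ C1 X).ncard : ℝ) ≤ (V1.ncard : ℝ) + V2.ncard := hn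
      _ ≤ _ := by
          rw [add_mul]
          exact add_le_add hb1 hb2
  · -- no splitting
    have hmin : xp α r q κ = α * P := by
      rw [hxp]
      refine min_eq_left ?_
      rw [← hI1]
      have : (α - 2 / q) * P ≤ (α - 2 / q) * σ := mul_le_mul_of_nonneg_left hgt.le hα2'
      linarith
    refine ⟨(D * (P * (1 / (δ / 2)) + c1 + 1)) * Real.exp (α * c1 + ε * c1), by positivity, ?_⟩
    intro X hX
    refine ⟨hfinV X hX, ?_⟩
    set Y : ℝ := P * X + c1 with hY
    have hY0 : 0 ≤ Y := by positivity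
    have hs1 := hsum X Y Y hX hY0 hY0 le_rfl
    set V1 : Set (Om K) := {x ∈ Ex S a r X Y | Real.log |(discr K⟮x⟯ : ℝ)| ≤ Y} with hV1
    have hV1f : V1.Finite :=
      (ex_fin S hS a ha (by omega) r hr X Y hX hY0).subset fun x hx => hx.1
    have hsub : Vx S a r κ C1 X ⊆ V1 := by
      intro x hx
      have h1 : x ∈ Ex S a r X Y := vx_sub S a r κ C1 X hκ hx
      refine ⟨h1, ?_⟩
      have h3 := h1.2.2.2
      have h5 := cnt_nonneg S a (AdjoinSimple.gen K x)
      linarith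
    have hn : ((Vx S a r κ C1 X).ncard : ℝ) ≤ (V1.ncard : ℝ) := by
      exact_mod_cast Set.ncard_le_ncard hsub hV1f
    rw [hmin]
    refine hn.trans (hs1.trans ?_)
    have h1 := absorb (s := Y) hP0 hc10 hD.le hX le_rfl (half_pos hδ)
    have h2 : 2 / q * Y + max (e - 2 / q) 0 * Y + ε * (X + Y) ≤
        (α * P + δ / 2) * X + (α * c1 + ε * c1) := by
      have h3 : max (e - 2 / q) 0 * Y ≤ (α - 2 / q) * Y :=
        mul_le_mul_of_nonneg_right hmaxe hY0
      have h4 : 2 / q * Y + (α - 2 / q) * Y + ε * (X + Y) =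
          α * P * X + ε * (1 + P) * X + (α * c1 + ε * c1) := by
        rw [hY]; ring
      rw [hεP] at h4
      linarith
    calc D * (Y + 1) * Real.exp (2 / q * Y + max (e - 2 / q) 0 * Y + ε * (X + Y))
        ≤ ((D * (P * (1 / (δ / 2)) + c1 + 1)) * Real.exp (δ / 2 * X)) *
          Real.exp ((α * P + δ / 2) * X + (α * c1 + ε * c1)) :=
          mul_le_mul h1 (Real.exp_le_exp.2 h2) (Real.exp_pos _).le (by positivity)
      _ = _ := by
          have h5 : Real.exp ((α * P + δ) * X) = Real.exp (δ / 2 * X) *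
              Real.exp ((α * P + δ / 2) * X) := by
            rw [← Real.exp_add]; congr 1; ring
          rw [Real.exp_add, h5]
          ring

end Pool.Agent.Y729.RV
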