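import Mathlib

/-!
# Ranks over `ℚ[X]` and `K[X]`
-/

set_option autoImplicit false

namespace Pool.Agent.Y729.RV

open Polynomial Module TensorProduct

attribute [local instance] Polynomial.algebra

section

variable (K : Type) [Field K] [Algebra ℚ K] [FiniteDimensional ℚ K]

noncomputable def polyE : ℚ[X] ⊗[ℚ] K ≃ₗ[ℚ[X]] K[X] :=
  (Algebra.IsPushout.equiv ℚ ℚ[X] K K[X]).toLinearEquiv

theorem poly_finite : Module.Finite ℚ[X] K[X] := Module.Finite.equiv (polyE K)

theorem poly_free : Module.Free ℚ[X] K[X] := Module.Free.of_equiv (polyE K)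

theorem poly_rank : finrank ℚ[X] K[X] = finrank ℚ K := by
  rw [← (polyE K).finrank_eq, finrank_baseChange]

end

variable (K A : Type) [Field K] [NumberField K] [CommRing A] [IsDomain A] [Algebra K A]
  [Algebra K[X] A] [IsScalarTower K K[X] A]

/-- `A` as an algebra over `ℚ` -/
@[reducible] noncomputable def aQ : Algebra ℚ A := ((algebraMap K A).comp (algebraMap ℚ K)).toAlgebra

/-- `A` as an algebra over `ℚ[X]` -/
@[reducible] noncomputable def aQX : Algebra ℚ[X] A :=
  ((algebraMap K[X] A).comp (algebraMap ℚ[X] K[X])).toAlgebra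

theorem tower1 : letI := aQ K A; letI := aQX K A; IsScalarTower ℚ ℚ[X] A := by
  letI := aQ K A
  letI := aQX K A
  refine IsScalarTower.of_algebraMap_eq' ?_
  ext q
  show algebraMap K A (algebraMap ℚ K q) = algebraMap K[X] A (algebraMap ℚ[X] K[X] (C q))
  rw [Polynomial.algebraMap_def, coe_mapRingHom, map_C, IsScalarTower.algebraMap_apply K K[X] A]
  rfl

theorem tower2 : letI := aQX K A; IsScalarTower ℚ[X] K[X] A := by
  letI := aQX K A
  exact IsScalarTower.of_algebraMap_eq' rfl

theorem tower3 : letI := aQ K A; IsScalarTower ℚ K A := by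
  letI := aQ K A
  exact IsScalarTower.of_algebraMap_eq' rfl

theorem finiteX [Module.Finite K[X] A] : letI := aQX K A; Module.Finite ℚ[X] A := by
  letI := aQX K A
  have := tower2 K A
  have := poly_finite K
  exact Module.Finite.trans K[X] A

theorem faithfulX [FaithfulSMul K[X] A] : letI := aQX K A; FaithfulSMul ℚ[X] A := by
  letI := aQX K A
  rw [faithfulSMul_iff_algebraMap_injective]
  exact (FaithfulSMul.algebraMap_injective K[X] A).comp (FaithfulSMul.algebraMap_injective ℚ[X] K[X])

theorem rankX [Module.Finite K[X] A] [FaithfulSMul K[X] A] :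
    letI := aQX K A; finrank ℚ[X] A = finrank ℚ K * finrank K[X] A := by
  letI := aQX K A
  have := tower2 K A
  have := poly_free K
  have : Module.IsTorsionFree K[X] A := inferInstance
  have : Module.Free K[X] A := inferInstance
  rw [← poly_rank K, finrank_mul_finrank]

theorem dimE (E : Ideal A) :
    letI := aQ K A; finrank ℚ (A ⧸ E) = finrank ℚ K * finrank K (A ⧸ E) := by
  letI := aQ K A
  have := tower3 K A
  rw [finrank_mul_finrank]

end Pool.Agent.Y729.RV
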