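import Mathlib
import Pool.Agent.W223.AC.Key
import Pool.Agent.Y729.RV.Near
import Pool.Agent.Y729.RV.Rank

/-!
# The truncated counting function of the fibres of a curve over a number field
-/

set_option autoImplicit false

namespace Pool.Agent.Y729.RV

open Polynomial IsDedekindDomain NumberField
open Pool.Agent.W223.CV
open Pool.Agent.W223.AC (StmtNB StmtNORM StmtMULT StmtLOC val_finite not_mem_of_dvd
  not_mem_of_primes cc_mono' near)

attribute [local instance] Polynomial.algebra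

theorem cnt_cc {K L : Type} [Field K] [NumberField K] [Field L] [NumberField L] [Algebra K L]
    {q : ℕ} (S : Finset ℕ) (a : Fin q → K) (y : L) : cnt S a y =
      cc S (fun w : HeightOneSpectrum (𝓞 L) => ∃ j ∈ (Finset.univ : Finset (Fin q)),
        w.valuation L y ≤ 1 ∧ w.valuation L (y - algebraMap K L (a j)) < 1) := by
  unfold cnt cc
  refine finsum_congr fun w => ?_
  by_cases h : Nr S a y w
  · rw [if_pos h, ct_pos ⟨h.1, h.2.2.choose, Finset.mem_univ _, h.2.1, h.2.2.choose_spec⟩]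
  · rw [if_neg h, ct_neg]
    rintro ⟨h1, j, -, h2, h3⟩
    exact h ⟨h1, h2, j, h3⟩

theorem keyK (hNB : StmtNB) (hNO : StmtNORM) (hMU : StmtMULT) (hLO : StmtLOC)
    (K A : Type) [Field K] [NumberField K] [CommRing A] [IsDedekindDomain A] [Algebra K A]
    [Algebra K[X] A] [IsScalarTower K K[X] A] [Module.Finite K[X] A] [FaithfulSMul K[X] A]
    {q : ℕ} (hq : 1 ≤ q) (a : Fin q → K) (u : Fin q → ℕ) (y : ∀ j, Fin (u j) → A)
    (E : Fin q → Ideal A) (hE : ∀ j, E j ≠ ⊥)
    (hyE : ∀ j i, ∀ e ∈ E j,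
      y j i * e ∈ (Ideal.span {algebraMap K[X] A X - algebraMap K A (a j)}).radical)
    (ε : ℝ) (hε : 0 < ε) :
    ∃ (M : ℕ) (C : ℝ) (G : ℚ[X]), M ≠ 0 ∧ 0 ≤ C ∧ G ≠ 0 ∧
      ∀ (S : Finset ℕ) (L : Type) [Field L] [NumberField L] [Algebra K L] (φ : A →ₐ[K] L),
        aeval (φ (algebraMap K[X] A X)) G ≠ 0 →
        (∀ j, φ (algebraMap K[X] A X) ≠ algebraMap K L (a j)) →
        cnt (S ∪ M.primeFactors) a (φ (algebraMap K[X] A X)) ≤
          cc S (fun v : HeightOneSpectrum (𝓞 L) => v.valuation L (φ (algebraMap K[X] A X)) ≤ 1 ∧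
            ∃ j, v.valuation L (φ (algebraMap K[X] A X) - algebraMap K L (a j)) < 1 ∧
              ∀ i, v.valuation L (φ (y j i)) < 1) +
          ((∑ j, (Module.finrank K (A ⧸ E j) : ℝ)) / Module.finrank K[X] A + ε) *
            Real.log (Height.mulHeight₁ (φ (algebraMap K[X] A X))) +
              Module.finrank ℚ L * C := by
  classical
  letI iQ := aQ K A
  letI iQX := aQX K A
  have i1 : IsScalarTower ℚ ℚ[X] A := tower1 K A
  have i2 : Module.Finite ℚ[X] A := finiteX K A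
  have i3 : FaithfulSMul ℚ[X] A := faithfulX K A
  have htt : Pool.Agent.W223.AC.tt A = algebraMap K[X] A X := by
    show algebraMap K[X] A (algebraMap ℚ[X] K[X] X) = _
    rw [Polynomial.algebraMap_def, coe_mapRingHom, map_X]
  have hNoeth : IsNoetherianRing A := inferInstance
  have hfg : ∀ j, ∃ (s : ℕ) (z : Fin s → A), Ideal.span (Set.range z) = E j := fun j =>
    Submodule.fg_iff_exists_fin_generating_family.mp (hNoeth.noetherian (E j))
  choose s z hz using hfg
  have hq0 : (0 : ℝ) < q := by exact_mod_cast hq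
  have hNB' := fun j => hNB A (E j) (hE j) (s j) (z j) (hz j) (ε / q) (by positivity)
  choose M₁ C₁ G₁ hM₁ hC₁ hG₁ hNB'' using hNB'
  have hNE := fun j => near hMU hLO A (algebraMap K[X] A X - algebraMap K A (a j))
    (u j) (s j) (y j) (z j)
    (fun i k => hyE j i _ (by rw [← hz j]; exact Ideal.subset_span ⟨k, rfl⟩))
  choose M₂ hM₂ hNE' using hNE
  have hzne : ∀ j, ∃ k, z j k ≠ 0 := by
    intro j
    by_contra hcon
    push Not at hcon
    apply hE j
    rw [← hz j, Ideal.span_eq_bot]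
    rintro _ ⟨k, rfl⟩
    exact hcon k
  choose k₀ hk₀ using hzne
  have hNO' := fun j => hNO A _ (hk₀ j)
  choose G₂ hG₂ hNO'' using hNO'
  refine ⟨∏ j, (M₁ j * M₂ j), ∑ j, C₁ j, ∏ j, (G₁ j * G₂ j),
    Finset.prod_ne_zero_iff.mpr fun j _ => mul_ne_zero (hM₁ j) (hM₂ j),
    Finset.sum_nonneg fun j _ => hC₁ j,
    Finset.prod_ne_zero_iff.mpr fun j _ => mul_ne_zero (hG₁ j) (hG₂ j), ?_⟩
  intro S L _ _ _ φ hG hne
  set x := φ (algebraMap K[X] A X) with hx
  have hx' : (φ : A →+* L) (Pool.Agent.W223.AC.tt A) = x := by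
    rw [htt]
    rfl
  set M := ∏ j, (M₁ j * M₂ j) with hM
  have hM0 : M ≠ 0 := Finset.prod_ne_zero_iff.mpr fun j _ => mul_ne_zero (hM₁ j) (hM₂ j)
  have hGj : ∀ j, aeval x (G₁ j) ≠ 0 ∧ aeval x (G₂ j) ≠ 0 := by
    intro j
    rw [map_prod, Finset.prod_ne_zero_iff] at hG
    have := hG j (Finset.mem_univ j)
    rw [map_mul] at this
    exact ⟨left_ne_zero_of_mul this, right_ne_zero_of_mul this⟩
  have hdiv : ∀ j, M₁ j * M₂ j ∣ M := fun j =>
    Finset.dvd_prod_of_mem (fun j => M₁ j * M₂ j) (Finset.mem_univ j)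
  -- the parts
  have hxa : ∀ j, x - algebraMap K L (a j) ≠ 0 := fun j => sub_ne_zero.mpr (hne j)
  have hDfin : {v : HeightOneSpectrum (𝓞 L) | v.valuation L x ≤ 1 ∧
      ∃ j, v.valuation L (x - algebraMap K L (a j)) < 1 ∧
        ∀ i, v.valuation L (φ (y j i)) < 1}.Finite := by
    refine (Set.finite_iUnion fun j => val_finite _ (hxa j)).subset ?_
    rintro v ⟨-, j, hv, -⟩
    exact Set.mem_iUnion.mpr ⟨j, hv⟩
  have hEfin : ∀ j, {v : HeightOneSpectrum (𝓞 L) | v.valuation L x ≤ 1 ∧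
      ∀ k, v.valuation L (φ (z j k)) < 1}.Finite := by
    intro j
    exact (val_finite _ (hNO'' j L (φ : A →+* L) (by rw [hx']; exact (hGj j).2))).subset
      fun v hv => hv.2 (k₀ j)
  have hEfin2 : {v : HeightOneSpectrum (𝓞 L) | ∃ j ∈ Finset.univ, v.valuation L x ≤ 1 ∧
      ∀ k, v.valuation L (φ (z j k)) < 1}.Finite := by
    refine (Set.finite_iUnion fun j => hEfin j).subset ?_
    rintro v ⟨j, -, hv⟩
    exact Set.mem_iUnion.mpr ⟨j, hv⟩
  have hSM : ∀ v : HeightOneSpectrum (𝓞 L), (∀ p ∈ S ∪ M.primeFactors, (p : 𝓞 L) ∉ v.asIdeal) →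
      (M : 𝓞 L) ∉ v.asIdeal := fun v hv =>
    not_mem_of_primes hM0 fun p hp => hv p (Finset.mem_union_right _ hp)
  rw [cnt_cc]
  have h1 : cc (S ∪ M.primeFactors)
        (fun v : HeightOneSpectrum (𝓞 L) => ∃ j ∈ (Finset.univ : Finset (Fin q)),
        v.valuation L x ≤ 1 ∧ v.valuation L (x - algebraMap K L (a j)) < 1) ≤
      cc (S ∪ M.primeFactors) (fun v : HeightOneSpectrum (𝓞 L) => (v.valuation L x ≤ 1 ∧
        ∃ j, v.valuation L (x - algebraMap K L (a j)) < 1 ∧
          ∀ i, v.valuation L (φ (y j i)) < 1) ∨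
        ∃ j ∈ Finset.univ, v.valuation L x ≤ 1 ∧ ∀ k, v.valuation L (φ (z j k)) < 1) := by
    refine cc_mono (le_refl _) (hDfin.union hEfin2) ?_
    rintro v hv ⟨j, -, h2, h3⟩
    have hMv := hSM v hv
    have hM2v : ((M₂ j : ℕ) : 𝓞 L) ∉ v.asIdeal :=
      not_mem_of_dvd ((Dvd.intro_left _ rfl).trans (hdiv j)) hMv
    have h4 : (φ : A →+* L) (algebraMap K[X] A X - algebraMap K A (a j)) =
        x - algebraMap K L (a j) := by
      rw [map_sub]
      show φ _ - φ _ = _
      rw [AlgHom.commutes]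
    rcases hNE' j L (φ : A →+* L) v hM2v (by rw [hx']; exact h2) (by rw [h4]; exact h3)
      with h5 | h5
    · exact Or.inl ⟨h2, j, h3, h5⟩
    · exact Or.inr ⟨j, Finset.mem_univ _, h2, h5⟩
  have h2 := cc_or (S ∪ M.primeFactors) hDfin hEfin2
  have h3 : cc (S ∪ M.primeFactors) (fun v : HeightOneSpectrum (𝓞 L) => v.valuation L x ≤ 1 ∧
        ∃ j, v.valuation L (x - algebraMap K L (a j)) < 1 ∧
          ∀ i, v.valuation L (φ (y j i)) < 1) ≤
      cc S (fun v : HeightOneSpectrum (𝓞 L) => v.valuation L x ≤ 1 ∧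
        ∃ j, v.valuation L (x - algebraMap K L (a j)) < 1 ∧
          ∀ i, v.valuation L (φ (y j i)) < 1) :=
    cc_mono Finset.subset_union_left hDfin fun v _ h => h
  have h4 := cc_exists (S ∪ M.primeFactors) Finset.univ
    (fun j (v : HeightOneSpectrum (𝓞 L)) => v.valuation L x ≤ 1 ∧
      ∀ k, v.valuation L (φ (z j k)) < 1) hEfin
  have hd : (Module.finrank ℚ K : ℝ) ≠ 0 := by
    have : 0 < Module.finrank ℚ K := Module.finrank_pos
    positivity
  have hrk : ∀ j, (Module.finrank ℚ (A ⧸ E j) : ℝ) / Module.finrank ℚ[X] A =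
      (Module.finrank K (A ⧸ E j) : ℝ) / Module.finrank K[X] A := by
    intro j
    have e1 : Module.finrank ℚ (A ⧸ E j) =
        Module.finrank ℚ K * Module.finrank K (A ⧸ E j) := dimE K A (E j)
    have e2 : Module.finrank ℚ[X] A = Module.finrank ℚ K * Module.finrank K[X] A := rankX K A
    rw [e1, e2]
    push_cast
    rw [mul_div_mul_left _ _ hd]
  have h5 : ∀ j, cc (S ∪ M.primeFactors) (fun v : HeightOneSpectrum (𝓞 L) =>
      v.valuation L x ≤ 1 ∧ ∀ k, v.valuation L (φ (z j k)) < 1) ≤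
      ((Module.finrank K (A ⧸ E j) : ℝ) / Module.finrank K[X] A + ε / q) *
        Real.log (Height.mulHeight₁ x) + Module.finrank ℚ L * C₁ j := by
    intro j
    have h6 := hNB'' j L (φ : A →+* L) (by rw [hx']; exact (hGj j).1)
    rw [hx', hrk j] at h6
    refine le_trans (cc_mono' (S := {M₁ j}) (hEfin j) fun v hv h => ⟨?_, h⟩) h6
    intro p hp
    rw [Finset.mem_singleton] at hp
    rw [hp]
    exact not_mem_of_dvd ((Dvd.intro _ rfl).trans (hdiv j)) (hSM v hv)
  have h6 := Finset.sum_le_sum fun j (_ : j ∈ Finset.univ) => h5 j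
  have h7 : ∑ j, (((Module.finrank K (A ⧸ E j) : ℝ) / Module.finrank K[X] A + ε / q) *
        Real.log (Height.mulHeight₁ x) + Module.finrank ℚ L * C₁ j) =
      ((∑ j, (Module.finrank K (A ⧸ E j) : ℝ)) / Module.finrank K[X] A + ε) *
            Real.log (Height.mulHeight₁ x) + Module.finrank ℚ L * ∑ j, C₁ j := by
    rw [Finset.sum_add_distrib, ← Finset.sum_mul, ← Finset.mul_sum, Finset.sum_add_distrib,
      ← Finset.sum_div]
    have : ∑ _j : Fin q, ε / (q : ℝ) = ε := by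
      rw [Finset.sum_const, Finset.card_univ, Fintype.card_fin, nsmul_eq_mul,
        mul_div_cancel₀ _ hq0.ne']
    rw [this]
  rw [h7] at h6
  linarith

end Pool.Agent.Y729.RV
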